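import Pool.Agent.H7.TRI.Stmts

/-!
# Board `tri`, row ISU: isolated pairs, inner edges
-/

set_option linter.unusedVariables false

open Finset

namespace Pool.TRI

theorem ISU_thm (hRCH : RCHStmt) (hOUT : OUTStmt) : ISUStmt := by
  intro V _ _ G d m hH C hC w hw
  obtain ⟨-, -, -, -, -, hX, -, -⟩ := hRCH V G d m hH C hC
  obtain ⟨hwC, hdw, hall⟩ := mem_Iso.1 hw
  have hwX : w ∈ XX G C := (hX w hwC).2 (by omega)
  refine ⟨hwX, ?_⟩
  obtain ⟨w', hw'⟩ := card_eq_one.1 (show (C \ cn G w).card = 1 from hdw)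
  have hw'm : w' ∈ C \ cn G w := by rw [hw']; exact mem_singleton_self _
  have hw'C : w' ∈ C := (mem_sdiff.1 hw'm).1
  have hw'n : w' ∉ cn G w := (mem_sdiff.1 hw'm).2
  have hdw' : df G C w' = 1 := hall w' hw'm
  have hw'X : w' ∈ XX G C := (hX w' hw'C).2 (by omega)
  have hne : w' ≠ w := fun h => hw'n (by rw [h]; exact self_mem_cn w)
  have hnb : w' ∉ nb G w := fun h => hw'n (mem_cn.2 (Or.inr (mem_nb.1 h)))
  have hww : w ∈ C \ cn G w' := (mem_sdiff_comm hw'C hwC).1 hw'm
  have hone : C \ cn G w' = {w} := by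
    obtain ⟨z, hz⟩ := card_eq_one.1 (show (C \ cn G w').card = 1 from hdw')
    rw [hz] at hww ⊢
    rw [mem_singleton.1 hww]
  refine ⟨w', hw'X, hne, hnb, hw', ?_⟩
  intro u huX huw huw'
  have huC : u ∈ C := (mem_XX.1 huX).1
  have hunb : ∀ q ∈ C, q ≠ w → q ≠ w' → q ∈ nb G w := by
    intro q hq h1 h2
    by_contra hcon
    have : q ∈ C \ cn G w := by
      rw [mem_sdiff]
      refine ⟨hq, fun h => ?_⟩
      rcases mem_cn.1 h with h | h
      · exact h1 h
      · exact hcon (mem_nb.2 h)
    rw [hw'] at this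
    exact h2 (mem_singleton.1 this)
  have hu : u ∈ nb G w := hunb u huC huw huw'
  have hdu : 1 ≤ df G C u := (hX u huC).1 huX
  obtain ⟨q, hq⟩ : (C \ cn G u).Nonempty := card_pos.1 (show 0 < (C \ cn G u).card from hdu)
  have hqC : q ∈ C := (mem_sdiff.1 hq).1
  have hqn : q ∉ cn G u := (mem_sdiff.1 hq).2
  have hqw : q ≠ w := by
    intro h
    have h1 : u ∈ C \ cn G w := (mem_sdiff_comm hwC huC).1 (h ▸ hq)
    rw [hw'] at h1
    exact huw' (mem_singleton.1 h1)
  have hqw' : q ≠ w' := by
    intro h
    have h1 : u ∈ C \ cn G w' := (mem_sdiff_comm hw'C huC).1 (h ▸ hq)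
    rw [hone] at h1
    exact huw (mem_singleton.1 h1)
  have hqnb : q ∈ nb G w := hunb q hqC hqw hqw'
  have hqu : q ≠ u := fun h => hqn (by rw [h]; exact self_mem_cn u)
  have hqnu : q ∉ nb G u := fun h => hqn (mem_cn.2 (Or.inr (mem_nb.1 h)))
  have hcard : (nb G w).card + 1 = d + (nb G w \ C).card := by
    have := (hOUT V G d m hH C hC w hwX).1
    rw [hdw] at this
    exact this
  refine ⟨hu, ?_, ?_⟩
  · have hsub : insert u (insert q (nb G w ∩ nb G u)) ⊆ nb G w := by
      intro z hz
      rcases mem_insert.1 hz with h | hz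
      · exact h ▸ hu
      rcases mem_insert.1 hz with h | hz
      · exact h ▸ hqnb
      exact (mem_inter.1 hz).1
    have hc := card_le_card hsub
    rw [card_insert_of_notMem, card_insert_of_notMem] at hc
    · unfold et cd
      omega
    · exact fun h => hqnu (mem_inter.1 h).2
    · intro h
      rcases mem_insert.1 h with h | h
      · exact hqu h.symm
      · exact self_notMem_nb u (mem_inter.1 h).2
  · intro y hy hyC hyu
    have hyu' : y ≠ u := fun h => hyC (h ▸ huC)
    have hyq : y ≠ q := fun h => hyC (h ▸ hqC)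
    have hsub : insert y (insert u (insert q (nb G w ∩ nb G u))) ⊆ nb G w := by
      intro z hz
      rcases mem_insert.1 hz with h | hz
      · exact h ▸ hy
      rcases mem_insert.1 hz with h | hz
      · exact h ▸ hu
      rcases mem_insert.1 hz with h | hz
      · exact h ▸ hqnb
      exact (mem_inter.1 hz).1
    have hc := card_le_card hsub
    rw [card_insert_of_notMem, card_insert_of_notMem, card_insert_of_notMem] at hc
    · unfold et cd
      omega
    · exact fun h => hqnu (mem_inter.1 h).2
    · intro h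
      rcases mem_insert.1 h with h | h
      · exact hqu h.symm
      · exact self_notMem_nb u (mem_inter.1 h).2
    · intro h
      rcases mem_insert.1 h with h | h
      · exact hyu' h
      rcases mem_insert.1 h with h | h
      · exact hyq h
      · exact hyu (mem_inter.1 h).2

end Pool.TRI
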