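import Pool.Agent.H76.TRI.Main

/-!
# Frames from natural-number coordinates, by a kernel check
-/

set_option autoImplicit false

namespace Pool.TRI

/-- A segment: ends `u`, `v` with their coordinates. -/
structure Sg where
  u : ℕ
  v : ℕ
  ax : ℕ
  ay : ℕ
  bx : ℕ
  by' : ℕ

/-- A face: corners `u`, `v`, `w` with their coordinates. -/
structure Fc where
  u : ℕ
  v : ℕ
  w : ℕ
  ux : ℕ
  uy : ℕ
  vx : ℕ
  vy : ℕ
  wx : ℕ
  wy : ℕ

/-- The orientation of a triple is positive. -/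
def sp (ax ay bx by' cx cy : ℕ) : Bool :=
  Nat.blt (ay * bx + by' * cx + cy * ax) (ax * by' + bx * cy + cx * ay)

/-- The orientation of a triple is negative. -/
def sn (ax ay bx by' cx cy : ℕ) : Bool :=
  Nat.blt (ax * by' + bx * cy + cx * ay) (ay * bx + by' * cx + cy * ax)

/-- Both points are strictly on the same side. -/
def ss (ax ay bx by' cx cy dx dy : ℕ) : Bool :=
  (sp ax ay bx by' cx cy && sp ax ay bx by' dx dy) ||
  (sn ax ay bx by' cx cy && sn ax ay bx by' dx dy)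

def nc (ax ay bx by' cx cy : ℕ) : Bool :=
  sp ax ay bx by' cx cy || sn ax ay bx by' cx cy

/-- Test for a pair of segments. -/
def okP (s t : Sg) : Bool :=
  ss s.ax s.ay s.bx s.by' t.ax t.ay t.bx t.by' ||
  (ss t.ax t.ay t.bx t.by' s.ax s.ay s.bx s.by' ||
  ((Nat.beq s.u t.u && nc s.ax s.ay s.bx s.by' t.bx t.by') ||
  ((Nat.beq s.u t.v && nc s.ax s.ay s.bx s.by' t.ax t.ay) ||
  ((Nat.beq s.v t.u && nc s.ax s.ay s.bx s.by' t.bx t.by') ||
  (Nat.beq s.v t.v && nc s.ax s.ay s.bx s.by' t.ax t.ay)))))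

/-- All points of the list are weakly on the outer side of the line `a b`
(`o`: the inner side is the positive one). -/
def outs (o : Bool) (ax ay bx by' : ℕ) : List (ℕ × ℕ) → Bool
  | [] => true
  | c :: l => (bif o then !(sp ax ay bx by' c.1 c.2) else !(sn ax ay bx by' c.1 c.2)) &&
      outs o ax ay bx by' l

/-- A side of the face separates it from the points of the list. -/
def sepF (f : Fc) (o : Bool) (l : List (ℕ × ℕ)) : Bool :=
  outs o f.ux f.uy f.vx f.vy l || (outs o f.vx f.vy f.wx f.wy l || outs o f.wx f.wy f.ux f.uy l)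

/-- The orientation of a face. -/
def Fc.o (f : Fc) : Bool := sp f.ux f.uy f.vx f.vy f.wx f.wy

/-- Test for a face and a segment. -/
def okFS (f : Fc) (s : Sg) : Bool :=
  sepF f f.o [(s.ax, s.ay), (s.bx, s.by')] ||
  ((!(sn s.ax s.ay s.bx s.by' f.ux f.uy) && (!(sn s.ax s.ay s.bx s.by' f.vx f.vy) &&
    (!(sn s.ax s.ay s.bx s.by' f.wx f.wy) && (sp s.ax s.ay s.bx s.by' f.ux f.uy ||
      (sp s.ax s.ay s.bx s.by' f.vx f.vy || sp s.ax s.ay s.bx s.by' f.wx f.wy))))) ||
  (!(sp s.ax s.ay s.bx s.by' f.ux f.uy) && (!(sp s.ax s.ay s.bx s.by' f.vx f.vy) &&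
    (!(sp s.ax s.ay s.bx s.by' f.wx f.wy) && (sn s.ax s.ay s.bx s.by' f.ux f.uy ||
      (sn s.ax s.ay s.bx s.by' f.vx f.vy || sn s.ax s.ay s.bx s.by' f.wx f.wy))))))

/-- Test for two faces. -/
def okFF (f g : Fc) : Bool :=
  sepF f f.o [(g.ux, g.uy), (g.vx, g.vy), (g.wx, g.wy)] ||
  sepF g g.o [(f.ux, f.uy), (f.vx, f.vy), (f.wx, f.wy)]

/-- All pairs of a list. -/
def allP {α : Type} (r : α → α → Bool) : List α → Bool
  | [] => true
  | a :: l => l.all (r a) && allP r l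

/-- The data of a frame. -/
structure FData where
  N : ℕ
  n : ℕ
  C : List (ℕ × ℕ)
  S : List Sg
  F : List Fc
  A : List ℕ
  B : List ℕ

/-- Position of a vertex. -/
def FData.c (D : FData) (v : ℕ) : ℕ × ℕ := D.C.getD v (0, 0)

def beqP (a b : ℕ × ℕ) : Bool := Nat.beq a.1 b.1 && Nat.beq a.2 b.2

def FData.okS (D : FData) (s : Sg) : Bool :=
  Nat.blt s.u D.n && (Nat.blt s.v D.n && (!(Nat.beq s.u s.v) &&
    (beqP (D.c s.u) (s.ax, s.ay) && (beqP (D.c s.v) (s.bx, s.by') &&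
    ((D.A.getD s.u 0).testBit s.v && (D.A.getD s.v 0).testBit s.u)))))

def FData.hasE (D : FData) (a b : ℕ) : Bool :=
  D.S.any fun s => (Nat.beq s.u a && Nat.beq s.v b) || (Nat.beq s.u b && Nat.beq s.v a)

def FData.okF (D : FData) (f : Fc) : Bool :=
  Nat.blt f.u D.n && (Nat.blt f.v D.n && (Nat.blt f.w D.n &&
    (beqP (D.c f.u) (f.ux, f.uy) && (beqP (D.c f.v) (f.vx, f.vy) && (beqP (D.c f.w) (f.wx, f.wy) &&
    (nc f.ux f.uy f.vx f.vy f.wx f.wy &&
    (D.hasE f.u f.v && (D.hasE f.v f.w && D.hasE f.u f.w))))))))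

/-- Bipartition test at the vertex `v`. -/
def FData.okB (D : FData) (v : ℕ) : Bool :=
  D.S.all fun s => !((D.A.getD v 0).testBit s.u && (D.A.getD v 0).testBit s.v) ||
    !((D.B.getD v 0).testBit s.u == (D.B.getD v 0).testBit s.v)

/-- Every vertex has an edge. -/
def FData.okV (D : FData) (v : ℕ) : Bool := D.S.any fun s => Nat.beq s.u v || Nat.beq s.v v

/-- The whole check. -/
def FData.check (D : FData) : Bool :=
  Nat.blt 0 D.N && (Nat.blt 0 D.n && (D.S.all D.okS && (D.F.all D.okF &&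
  ((List.range D.n).all D.okB && ((List.range D.n).all D.okV &&
  (allP (fun a b => !(beqP (D.c a) (D.c b))) (List.range D.n) &&
  (allP okP D.S && (D.F.all (fun f => D.S.all (okFS f)) && allP okFF D.F))))))))

/-- Additional check for a patch: corners and inner vertices. -/
def FData.checkIn (D : FData) : Bool :=
  Nat.blt 2 D.n && (beqP (D.c 0) (0, 0) && (beqP (D.c 1) (D.N, 0) && (beqP (D.c 2) (0, D.N) &&
  (D.hasE 0 1 && (D.hasE 1 2 && (D.hasE 0 2 &&
  (List.range D.n).all fun v => Nat.blt v 3 || (Nat.blt 0 (D.c v).1 && (Nat.blt 0 (D.c v).2 &&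
    Nat.blt ((D.c v).1 + (D.c v).2) D.N))))))))

end Pool.TRI
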