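import Pool.Agent.H76.TRI.Geo

/-!
# Inserting patches into the designated faces of a frame
-/

set_option autoImplicit false

open Classical

namespace Pool.TRI

variable {LL : Finset ℕ → Prop}

/-- `s` is a corner of the patch. -/
def Patch.IsC (P : Patch LL) (s : P.W) : Prop := s = P.x ∨ s = P.y ∨ s = P.z

theorem Patch.cx (P : Patch LL) : P.IsC P.x := Or.inl rfl

theorem Patch.cy (P : Patch LL) : P.IsC P.y := Or.inr (Or.inl rfl)

theorem Patch.cz (P : Patch LL) : P.IsC P.z := Or.inr (Or.inr rfl)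

theorem Patch.not_isC {P : Patch LL} {s : P.W} (h : ¬ P.IsC s) : s ≠ P.x ∧ s ≠ P.y ∧ s ≠ P.z := by
  unfold Patch.IsC at h
  tauto

theorem Patch.corner_adj {P : Patch LL} {s t : P.W} (hs : P.IsC s) (ht : P.IsC t) (h : s ≠ t) :
    P.H.Adj s t := by
  rcases hs with rfl | rfl | rfl <;> rcases ht with rfl | rfl | rfl
  · exact absurd rfl h
  · exact P.xy
  · exact P.xz
  · exact P.xy.symm
  · exact absurd rfl h
  · exact P.yz
  · exact P.xz.symm
  · exact P.yz.symm
  · exact absurd rfl h

theorem Patch.open_of {P : Patch LL} {s : P.W} (h : ¬ P.IsC s) : OpenRef (P.p s) :=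
  P.inside s (Patch.not_isC h).1 (Patch.not_isC h).2.1 (Patch.not_isC h).2.2

theorem Patch.closed (P : Patch LL) (s : P.W) : ClosedRef (P.p s) := by
  by_cases h : P.IsC s
  · rcases h with rfl | rfl | rfl
    · rw [P.px]; exact ⟨by norm_num, by norm_num, by norm_num⟩
    · rw [P.py]; exact ⟨by norm_num, by norm_num, by norm_num⟩
    · rw [P.pz]; exact ⟨by norm_num, by norm_num, by norm_num⟩
  · exact (Patch.open_of h).closed

/-- Inner vertices of a patch. -/
abbrev Patch.Inner (P : Patch LL) : Type := {s : P.W // ¬ P.IsC s}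

variable {V ι : Type} {G : SimpleGraph V} {f : V → ℝ × ℝ} {u v w : ι → V}

/-- The vertices of the composite. -/
abbrev CV (V : Type) (Q : ι → Patch LL) : Type := V ⊕ (Σ i, (Q i).Inner)

/-- The embedding of a patch into the composite. -/
noncomputable def rho (u v w : ι → V) (Q : ι → Patch LL) (i : ι) (s : (Q i).W) : CV V Q :=
  if h : (Q i).IsC s then
    (if s = (Q i).x then Sum.inl (u i) else if s = (Q i).y then Sum.inl (v i) else Sum.inl (w i))
  else Sum.inr ⟨i, ⟨s, h⟩⟩

/-- The affine map of the face `i`. -/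
def afi (f : V → ℝ × ℝ) (u v w : ι → V) (i : ι) (q : ℝ × ℝ) : ℝ × ℝ :=
  aff (f (u i)) (f (v i)) (f (w i)) q

/-- The positions. -/
def cpos (f : V → ℝ × ℝ) (u v w : ι → V) (Q : ι → Patch LL) : CV V Q → ℝ × ℝ
  | Sum.inl a => f a
  | Sum.inr q => afi f u v w q.1 ((Q q.1).p q.2.1)

/-- The open face `i`. -/
def OF (f : V → ℝ × ℝ) (u v w : ι → V) (i : ι) (q : ℝ × ℝ) : Prop :=
  OpenTri (f (u i)) (f (v i)) (f (w i)) q

variable {Q : ι → Patch LL}

theorem rho_x (i : ι) : rho u v w Q i (Q i).x = Sum.inl (u i) := by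
  unfold rho
  rw [dif_pos (Q i).cx, if_pos rfl]

theorem rho_y (i : ι) : rho u v w Q i (Q i).y = Sum.inl (v i) := by
  unfold rho
  rw [dif_pos (Q i).cy, if_neg (Q i).xy.ne', if_pos rfl]

theorem rho_z (i : ι) : rho u v w Q i (Q i).z = Sum.inl (w i) := by
  unfold rho
  rw [dif_pos (Q i).cz, if_neg (Q i).xz.ne', if_neg (Q i).yz.ne']

theorem rho_in {i : ι} {s : (Q i).W} (h : ¬ (Q i).IsC s) :
    rho u v w Q i s = Sum.inr ⟨i, ⟨s, h⟩⟩ := by
  unfold rho
  rw [dif_neg h]

/-- A corner goes to a corner of the face. -/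
theorem rho_corner {i : ι} {s : (Q i).W} (h : (Q i).IsC s) :
    ∃ a, rho u v w Q i s = Sum.inl a := by
  rcases h with rfl | rfl | rfl
  · exact ⟨_, rho_x i⟩
  · exact ⟨_, rho_y i⟩
  · exact ⟨_, rho_z i⟩

theorem corner_of_inl {i : ι} {s : (Q i).W} {a : V} (h : rho u v w Q i s = Sum.inl a) :
    (Q i).IsC s := by
  by_contra h1
  rw [rho_in h1] at h
  cases h

theorem cpos_rho (i : ι) (s : (Q i).W) :
    cpos f u v w Q (rho u v w Q i s) = afi f u v w i ((Q i).p s) := by
  by_cases h : (Q i).IsC s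
  · rcases h with rfl | rfl | rfl
    · rw [rho_x, (Q i).px]; exact (aff_x _ _ _).symm
    · rw [rho_y, (Q i).py]; exact (aff_y _ _ _).symm
    · rw [rho_z, (Q i).pz]; exact (aff_z _ _ _).symm
  · rw [rho_in h]
    rfl

variable (hF : IsFrame G f u v w)

include hF

theorem afi_inj {i : ι} {q r : ℝ × ℝ} (h : afi f u v w i q = afi f u v w i r) : q = r :=
  aff_inj (hF.nondeg i) h

theorem rho_inj {i : ι} {s t : (Q i).W} (h : rho u v w Q i s = rho u v w Q i t) : s = t := by
  have h1 := congrArg (cpos f u v w Q) h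
  rw [cpos_rho, cpos_rho] at h1
  exact (Q i).drawn.1 (afi_inj hF h1)

/-- Images of two different corners are adjacent in the frame. -/
theorem corner_adj' {i : ι} {s t : (Q i).W} (hst : s ≠ t) {a b : V}
    (ha : rho u v w Q i s = Sum.inl a) (hb : rho u v w Q i t = Sum.inl b) : G.Adj a b := by
  have hs := corner_of_inl ha
  have ht := corner_of_inl hb
  have e1 := hF.uv i
  have e2 := hF.vw i
  have e3 := hF.uw i
  rcases hs with rfl | rfl | rfl <;> rcases ht with rfl | rfl | rfl <;>
    simp only [rho_x, rho_y, rho_z, Sum.inl.injEq] at ha hb <;> subst ha <;> subst hb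
  · exact absurd rfl hst
  · exact e1
  · exact e3
  · exact e1.symm
  · exact absurd rfl hst
  · exact e2
  · exact e3.symm
  · exact e2.symm
  · exact absurd rfl hst

/-- The composite graph. -/
noncomputable def CG (Q : ι → Patch LL) : SimpleGraph (CV V Q) where
  Adj a b := (∃ c d, a = Sum.inl c ∧ b = Sum.inl d ∧ G.Adj c d) ∨
    ∃ (i : ι) (s t : (Q i).W), (Q i).H.Adj s t ∧ a = rho u v w Q i s ∧ b = rho u v w Q i t
  symm := ⟨by
    rintro a b (⟨c, d, h1, h2, h3⟩ | ⟨i, s, t, h1, h2, h3⟩)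
    · exact Or.inl ⟨d, c, h2, h1, h3.symm⟩
    · exact Or.inr ⟨i, t, s, h1.symm, h3, h2⟩⟩
  loopless := ⟨by
    rintro a (⟨c, d, h1, h2, h3⟩ | ⟨i, s, t, h1, h2, h3⟩)
    · rw [h1] at h2
      exact h3.ne (Sum.inl.inj h2)
    · exact h1.ne (rho_inj hF (h2.symm.trans h3))⟩

theorem adj_inl {c d : V} : (CG hF Q).Adj (Sum.inl c) (Sum.inl d) ↔ G.Adj c d := by
  constructor
  · rintro (⟨c', d', h1, h2, h3⟩ | ⟨i, s, t, h1, h2, h3⟩)
    · rw [Sum.inl.inj h1, Sum.inl.inj h2]; exact h3
    · exact corner_adj' hF h1.ne h2.symm h3.symm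
  · intro h
    exact Or.inl ⟨c, d, rfl, rfl, h⟩

theorem adj_rho {i : ι} {s t : (Q i).W} :
    (CG hF Q).Adj (rho u v w Q i s) (rho u v w Q i t) ↔ (Q i).H.Adj s t := by
  constructor
  · rintro (⟨c', d', h1, h2, h3⟩ | ⟨j, s', t', h1, h2, h3⟩)
    · refine Patch.corner_adj (corner_of_inl h1) (corner_of_inl h2) ?_
      rintro rfl
      rw [h1] at h2
      exact h3.ne (Sum.inl.inj h2)
    · by_cases hij : j = i
      · subst hij
        rw [rho_inj hF h2, rho_inj hF h3]
        exact h1
      · have key : ∀ (a : (Q i).W) (b : (Q j).W), rho u v w Q i a = rho u v w Q j b →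
            (Q i).IsC a := by
          intro a b hab
          by_contra hc
          rw [rho_in hc] at hab
          by_cases hb : (Q j).IsC b
          · obtain ⟨e, he⟩ := rho_corner (u := u) (v := v) (w := w) hb
            rw [he] at hab
            cases hab
          · rw [rho_in hb] at hab
            have := congrArg Sigma.fst (Sum.inr.inj hab)
            exact hij this.symm
        refine Patch.corner_adj (key s s' h2) (key t t' h3) ?_
        rintro rfl
        exact h1.ne (rho_inj hF (h2.symm.trans h3))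
  · intro h
    exact Or.inr ⟨i, s, t, h, rfl, rfl⟩

/-- Every edge is an edge of the frame or a proper edge of a patch. -/
theorem adj_cases {a b : CV V Q} (h : (CG hF Q).Adj a b) :
    (∃ c d, a = Sum.inl c ∧ b = Sum.inl d ∧ G.Adj c d) ∨
    ∃ (i : ι) (s t : (Q i).W), (Q i).H.Adj s t ∧ a = rho u v w Q i s ∧ b = rho u v w Q i t ∧
      ¬ ((Q i).IsC s ∧ (Q i).IsC t) := by
  rcases h with ⟨c, d, h1, h2, h3⟩ | ⟨i, s, t, h1, h2, h3⟩
  · exact Or.inl ⟨c, d, h1, h2, h3⟩
  · by_cases hc : (Q i).IsC s ∧ (Q i).IsC t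
    · obtain ⟨c, hc1⟩ := rho_corner (u := u) (v := v) (w := w) hc.1
      obtain ⟨d, hd1⟩ := rho_corner (u := u) (v := v) (w := w) hc.2
      exact Or.inl ⟨c, d, h2.trans hc1, h3.trans hd1, corner_adj' hF h1.ne hc1 hd1⟩
    · exact Or.inr ⟨i, s, t, h1, h2, h3, hc⟩

omit hF in
/-- The points of a proper edge of a patch. -/
theorem edge_pts {i : ι} {s t : (Q i).W} (hc : ¬ ((Q i).IsC s ∧ (Q i).IsC t)) {q : ℝ × ℝ}
    (hq : q ∈ segment ℝ (cpos f u v w Q (rho u v w Q i s)) (cpos f u v w Q (rho u v w Q i t))) :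
    OF f u v w i q ∨ ∃ e, (Q i).IsC e ∧ (e = s ∨ e = t) ∧ q = cpos f u v w Q (rho u v w Q i e) := by
  rw [cpos_rho, cpos_rho] at hq
  obtain ⟨q', hq', rfl⟩ := seg_aff hq
  have main : ∀ s' t' : (Q i).W, ¬ (Q i).IsC s' → q' ∈ segment ℝ ((Q i).p s') ((Q i).p t') →
      OpenRef q' ∨ ((Q i).IsC t' ∧ q' = (Q i).p t') := by
    intro s' t' h1 h2
    rcases seg_open (Patch.open_of h1) ((Q i).closed t') h2 with h3 | h3
    · exact Or.inl h3
    · by_cases h4 : (Q i).IsC t'
      · exact Or.inr ⟨h4, h3⟩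
      · exact Or.inl (h3 ▸ Patch.open_of h4)
  by_cases hs : (Q i).IsC s
  · have ht : ¬ (Q i).IsC t := fun h => hc ⟨hs, h⟩
    rw [segment_symm] at hq'
    rcases main t s ht hq' with h | ⟨h1, h2⟩
    · exact Or.inl ⟨q', h, rfl⟩
    · refine Or.inr ⟨s, h1, Or.inl rfl, ?_⟩
      rw [cpos_rho, h2]; rfl
  · rcases main s t hs hq' with h | ⟨h1, h2⟩
    · exact Or.inl ⟨q', h, rfl⟩
    · refine Or.inr ⟨t, h1, Or.inr rfl, ?_⟩
      rw [cpos_rho, h2]; rfl

theorem not_OF_inl (i : ι) (a : V) : ¬ OF f u v w i (cpos f u v w Q (Sum.inl a)) := hF.vert i a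

omit hF in
theorem OF_inr (i : ι) (s : (Q i).Inner) : OF f u v w i (cpos f u v w Q (Sum.inr ⟨i, s⟩)) :=
  ⟨(Q i).p s.1, Patch.open_of s.2, rfl⟩

theorem cpos_inj : Function.Injective (cpos f u v w Q) := by
  rintro (a | ⟨i, s⟩) (b | ⟨j, t⟩) h
  · exact congrArg _ (hF.drawn.1 h)
  · exfalso
    exact not_OF_inl (Q := Q) hF j a (h ▸ OF_inr (f := f) (u := u) (v := v) (w := w) j t)
  · exfalso
    exact not_OF_inl (Q := Q) hF i b (h ▸ OF_inr (f := f) (u := u) (v := v) (w := w) i s)
  · by_cases hij : i = j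
    · subst hij
      have h1 : (Q i).p s.1 = (Q i).p t.1 := afi_inj hF h
      have h2 : s = t := Subtype.ext ((Q i).drawn.1 h1)
      rw [h2]
    · exfalso
      have h1 := OF_inr (f := f) (u := u) (v := v) (w := w) i s
      have h2 := OF_inr (f := f) (u := u) (v := v) (w := w) j t
      rw [h] at h1
      exact hF.disj i j hij _ h1 h2

theorem drawn_CG : Drawn (CG hF Q) (cpos f u v w Q) := by
  refine ⟨cpos_inj hF, ?_, ?_⟩
  · -- a frame edge and a proper patch edge
    have PQ : ∀ (a b : V) (i : ι) (s t : (Q i).W), G.Adj a b → ¬ ((Q i).IsC s ∧ (Q i).IsC t) →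
        ∀ q ∈ segment ℝ (cpos f u v w Q (Sum.inl a)) (cpos f u v w Q (Sum.inl b)),
        q ∈ segment ℝ (cpos f u v w Q (rho u v w Q i s)) (cpos f u v w Q (rho u v w Q i t)) →
        ∃ x : CV V Q, (x = Sum.inl a ∨ x = Sum.inl b) ∧
          (x = rho u v w Q i s ∨ x = rho u v w Q i t) ∧ q = cpos f u v w Q x := by
      intro a b i s t hab hc q h1 h2
      rcases edge_pts hc h2 with h3 | ⟨e, he, he', h3⟩
      · exact absurd h3 (hF.edge i a b hab q h1)
      · obtain ⟨x, hx⟩ := rho_corner (u := u) (v := v) (w := w) he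
        refine ⟨rho u v w Q i e, ?_, ?_, h3⟩
        · rw [hx]
          rw [h3, hx] at h1
          rcases hF.drawn.2.2 a b x hab h1 with h | h
          · exact Or.inl (congrArg _ h)
          · exact Or.inr (congrArg _ h)
        · rcases he' with h | h
          · exact Or.inl (congrArg _ h)
          · exact Or.inr (congrArg _ h)
    intro a b c d hab hcd hne q hq1 hq2
    rcases adj_cases hF hab with ⟨a', b', rfl, rfl, hab'⟩ | ⟨i, s, t, hst, rfl, rfl, hc⟩ <;>
    rcases adj_cases hF hcd with ⟨c', d', rfl, rfl, hcd'⟩ | ⟨j, s', t', hst', rfl, rfl, hc'⟩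
    · have hne' : s(a', b') ≠ s(c', d') := by
        intro h
        apply hne
        rcases Sym2.eq_iff.1 h with ⟨h1, h2⟩ | ⟨h1, h2⟩
        · rw [h1, h2]
        · rw [h1, h2]; exact Sym2.eq_swap
      obtain ⟨x, h1, h2, h3⟩ := hF.drawn.2.1 a' b' c' d' hab' hcd' hne' q hq1 hq2
      refine ⟨Sum.inl x, ?_, ?_, h3⟩
      · rcases h1 with h | h
        · exact Or.inl (congrArg _ h)
        · exact Or.inr (congrArg _ h)
      · rcases h2 with h | h
        · exact Or.inl (congrArg _ h)
        · exact Or.inr (congrArg _ h)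
    · exact PQ a' b' j s' t' hab' hc' q hq1 hq2
    · obtain ⟨x, h1, h2, h3⟩ := PQ c' d' i s t hcd' hc q hq2 hq1
      exact ⟨x, h2, h1, h3⟩
    · by_cases hij : i = j
      · subst hij
        rw [cpos_rho, cpos_rho] at hq1 hq2
        obtain ⟨q1, hq1', e1⟩ := seg_aff hq1
        obtain ⟨q2, hq2', e2⟩ := seg_aff hq2
        have e3 : q1 = q2 := aff_inj (hF.nondeg i) (e1.symm.trans e2)
        subst e3
        have hne' : s(s, t) ≠ s(s', t') := by
          intro h
          apply hne
          rcases Sym2.eq_iff.1 h with ⟨h1, h2⟩ | ⟨h1, h2⟩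
          · rw [h1, h2]
          · rw [h1, h2]; exact Sym2.eq_swap
        obtain ⟨x, h1, h2, h3⟩ := (Q i).drawn.2.1 s t s' t' hst hst' hne' q1 hq1' hq2'
        refine ⟨rho u v w Q i x, ?_, ?_, ?_⟩
        · rcases h1 with h | h
          · exact Or.inl (congrArg _ h)
          · exact Or.inr (congrArg _ h)
        · rcases h2 with h | h
          · exact Or.inl (congrArg _ h)
          · exact Or.inr (congrArg _ h)
        · rw [cpos_rho, e1, h3]; rfl
      · rcases edge_pts hc hq1 with h1 | ⟨e, he, he', h1⟩ <;>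
        rcases edge_pts hc' hq2 with h2 | ⟨e2, he2, he2', h2⟩
        · exact absurd h2 (hF.disj i j hij q h1)
        · exfalso
          obtain ⟨x, hx⟩ := rho_corner (u := u) (v := v) (w := w) he2
          rw [h2, hx] at h1
          exact not_OF_inl (Q := Q) hF i x h1
        · exfalso
          obtain ⟨x, hx⟩ := rho_corner (u := u) (v := v) (w := w) he
          rw [h1, hx] at h2
          exact not_OF_inl (Q := Q) hF j x h2
        · have e3 : rho u v w Q i e = rho u v w Q j e2 := cpos_inj hF (h1.symm.trans h2)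
          refine ⟨rho u v w Q i e, ?_, ?_, h1⟩
          · rcases he' with h | h
            · exact Or.inl (congrArg _ h)
            · exact Or.inr (congrArg _ h)
          · rw [e3]
            rcases he2' with h | h
            · exact Or.inl (congrArg _ h)
            · exact Or.inr (congrArg _ h)
  · intro a b x hab hx
    rcases adj_cases hF hab with ⟨a', b', rfl, rfl, hab'⟩ | ⟨i, s, t, hst, rfl, rfl, hc⟩
    · rcases x with x | ⟨j, s⟩
      · rcases hF.drawn.2.2 a' b' x hab' hx with h | h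
        · exact Or.inl (congrArg _ h)
        · exact Or.inr (congrArg _ h)
      · exact absurd (OF_inr (f := f) (u := u) (v := v) (w := w) j s) (hF.edge j a' b' hab' _ hx)
    · rcases edge_pts hc hx with h1 | ⟨e, he, he', h1⟩
      · rcases x with x | ⟨j, s'⟩
        · exact absurd h1 (not_OF_inl (Q := Q) hF i x)
        · by_cases hij : i = j
          · subst hij
            rw [cpos_rho, cpos_rho] at hx
            obtain ⟨q', hq', e1⟩ := seg_aff hx
            have e2 : (Q i).p s'.1 = q' := aff_inj (hF.nondeg i) e1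
            rw [← e2] at hq'
            have e3 : (Sum.inr ⟨i, s'⟩ : CV V Q) = rho u v w Q i s'.1 := (rho_in s'.2).symm
            rw [e3]
            rcases (Q i).drawn.2.2 s t s'.1 hst hq' with h | h
            · exact Or.inl (congrArg _ h)
            · exact Or.inr (congrArg _ h)
          · exact absurd (OF_inr (f := f) (u := u) (v := v) (w := w) j s')
              (hF.disj i j hij _ h1)
      · have e3 := cpos_inj hF h1
        rcases he' with h | h
        · exact Or.inl (e3.trans (congrArg _ h))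
        · exact Or.inr (e3.trans (congrArg _ h))

end Pool.TRI
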