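import Pool.Agent.H76.TRI.Frame

/-!
# The octahedron in the reference triangle
-/

set_option autoImplicit false

namespace Pool.TRI

/-- The octahedron in the reference triangle -/
def dOct : FData where
  N := 10
  n := 6
  C := [
    (0, 0), (10, 0), (0, 10), (4, 2), (4, 4), (2, 4)]
  S := [
    ⟨0, 1, 0, 0, 10, 0⟩, ⟨1, 2, 10, 0, 0, 10⟩, ⟨0, 2, 0, 0, 0, 10⟩, ⟨3, 0, 4, 2, 0, 0⟩,
    ⟨3, 1, 4, 2, 10, 0⟩, ⟨4, 1, 4, 4, 10, 0⟩, ⟨4, 2, 4, 4, 0, 10⟩, ⟨5, 2, 2, 4, 0, 10⟩,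
    ⟨5, 0, 2, 4, 0, 0⟩, ⟨3, 4, 4, 2, 4, 4⟩, ⟨4, 5, 4, 4, 2, 4⟩, ⟨3, 5, 4, 2, 2, 4⟩]
  F := [
    ⟨0, 1, 3, 0, 0, 10, 0, 4, 2⟩, ⟨1, 2, 4, 10, 0, 0, 10, 4, 4⟩, ⟨2, 0, 5, 0, 10, 0, 0, 2, 4⟩]
  A := [
    46, 29, 51, 51, 46, 29]
  B := [
    12, 12, 34, 34, 12, 12]

theorem check_dOct : dOct.check = true := by decide +kernel

theorem checkIn_dOct : dOct.checkIn = true := by decide +kernel

end Pool.TRI
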