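import Pool.Agent.H76.TRI.Frame

/-!
# The bare triangle with one face
-/

set_option autoImplicit false

namespace Pool.TRI

/-- Corner coordinates. -/
def triPt (k : ℕ) : ℕ × ℕ := if k = 0 then (0, 0) else if k = 1 then (1, 0) else (0, 1)

/-- The bare triangle, the face with corners in the order `a, b, c`. -/
def dTri (a b c : ℕ) : FData where
  N := 1
  n := 3
  C := [(0, 0), (1, 0), (0, 1)]
  S := [⟨0, 1, 0, 0, 1, 0⟩, ⟨1, 2, 1, 0, 0, 1⟩, ⟨0, 2, 0, 0, 0, 1⟩]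
  F := [⟨a, b, c, (triPt a).1, (triPt a).2, (triPt b).1, (triPt b).2, (triPt c).1, (triPt c).2⟩]
  A := [6, 5, 3]
  B := [2, 1, 1]

/-- The six orders. -/
def six : List (ℕ × ℕ × ℕ) := [(0, 1, 2), (0, 2, 1), (1, 0, 2), (1, 2, 0), (2, 0, 1), (2, 1, 0)]

theorem check_dTri : ∀ p ∈ six, (dTri p.1 p.2.1 p.2.2).check = true ∧
    (dTri p.1 p.2.1 p.2.2).checkIn = true := by decide +kernel

end Pool.TRI
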