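import Mathlib

/-!
# Straight-line drawn triangle patches: definitions
-/

set_option autoImplicit false

namespace Pool.TRI

/-- A straight-line drawing without crossings. -/
def Drawn {V : Type} (G : SimpleGraph V) (f : V → ℝ × ℝ) : Prop :=
  Function.Injective f ∧
    (∀ a b c d : V, G.Adj a b → G.Adj c d → s(a, b) ≠ s(c, d) →
      ∀ p ∈ segment ℝ (f a) (f b), p ∈ segment ℝ (f c) (f d) →
        ∃ w : V, (w = a ∨ w = b) ∧ (w = c ∨ w = d) ∧ p = f w) ∧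
    (∀ a b w : V, G.Adj a b → f w ∈ segment ℝ (f a) (f b) → w = a ∨ w = b)

/-- Every neighbourhood induces a bipartite graph. -/
def NBip {V : Type} (G : SimpleGraph V) : Prop :=
  ∀ v, ∃ f : V → Bool, ∀ u w, G.Adj v u → G.Adj v w → G.Adj u w → f u ≠ f w

/-- Twice the signed area of `a b c`. -/
def cross (a b c : ℝ × ℝ) : ℝ := (b.1 - a.1) * (c.2 - a.2) - (b.2 - a.2) * (c.1 - a.1)

/-- The affine map which takes `(0,0)`, `(1,0)`, `(0,1)` to `a`, `b`, `c`. -/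
def aff (a b c q : ℝ × ℝ) : ℝ × ℝ :=
  (a.1 + q.1 * (b.1 - a.1) + q.2 * (c.1 - a.1), a.2 + q.1 * (b.2 - a.2) + q.2 * (c.2 - a.2))

/-- The open reference triangle. -/
def OpenRef (q : ℝ × ℝ) : Prop := 0 < q.1 ∧ 0 < q.2 ∧ q.1 + q.2 < 1

/-- The open triangle `a b c`. -/
def OpenTri (a b c q : ℝ × ℝ) : Prop := ∃ r, OpenRef r ∧ q = aff a b c r

/-- A patch: a graph drawn in the reference triangle, with lists on the inner vertices. -/
structure Patch (LL : Finset ℕ → Prop) where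
  W : Type
  fin : Finite W
  H : SimpleGraph W
  p : W → ℝ × ℝ
  x : W
  y : W
  z : W
  L : W → Finset ℕ
  drawn : Drawn H p
  nbip : NBip H
  px : p x = (0, 0)
  py : p y = (1, 0)
  pz : p z = (0, 1)
  xy : H.Adj x y
  yz : H.Adj y z
  xz : H.Adj x z
  inside : ∀ w, w ≠ x → w ≠ y → w ≠ z → OpenRef (p w)
  lists : ∀ w, w ≠ x → w ≠ y → w ≠ z → LL (L w)

/-- The boundary colouring `(a, b, c)` extends to the patch. -/
def Patch.Ext {LL : Finset ℕ → Prop} (P : Patch LL) (a b c : ℕ) : Prop :=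
  ∃ φ : P.W → ℕ, (∀ s t, P.H.Adj s t → φ s ≠ φ t) ∧
    (∀ w, w ≠ P.x → w ≠ P.y → w ≠ P.z → φ w ∈ P.L w) ∧ φ P.x = a ∧ φ P.y = b ∧ φ P.z = c

/-- Some patch kills all the boundary colourings in `K`. -/
def Kills (LL : Finset ℕ → Prop) (K : ℕ → ℕ → ℕ → Prop) : Prop :=
  ∃ P : Patch LL, ∀ a b c, K a b c → ¬ P.Ext a b c

/-- A drawn graph with designated empty triangular faces `u i, v i, w i`. -/
structure IsFrame {V ι : Type} (G : SimpleGraph V) (f : V → ℝ × ℝ) (u v w : ι → V) : Prop where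
  drawn : Drawn G f
  nbip : NBip G
  uv : ∀ i, G.Adj (u i) (v i)
  vw : ∀ i, G.Adj (v i) (w i)
  uw : ∀ i, G.Adj (u i) (w i)
  nondeg : ∀ i, cross (f (u i)) (f (v i)) (f (w i)) ≠ 0
  vert : ∀ i a, ¬ OpenTri (f (u i)) (f (v i)) (f (w i)) (f a)
  edge : ∀ i a b, G.Adj a b → ∀ q ∈ segment ℝ (f a) (f b),
    ¬ OpenTri (f (u i)) (f (v i)) (f (w i)) q
  disj : ∀ i j, i ≠ j → ∀ q, OpenTri (f (u i)) (f (v i)) (f (w i)) q →
    ¬ OpenTri (f (u j)) (f (v j)) (f (w j)) q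

end Pool.TRI
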