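import Pool.Agent.H76.TRI.Sound

/-!
# Frames from the check
-/

set_option autoImplicit false

namespace Pool.TRI

theorem allP_pairwise {α : Type} {r : α → α → Bool} : ∀ {l : List α}, allP r l = true →
    l.Pairwise (fun a b => r a b = true)
  | [], _ => List.Pairwise.nil
  | a :: l, h => by
    unfold allP at h
    rw [Bool.and_eq_true] at h
    exact List.pairwise_cons.2 ⟨fun b hb => List.all_eq_true.1 h.1 b hb, allP_pairwise h.2⟩

theorem allP_mem {α : Type} {r : α → α → Bool} {l : List α} (h : allP r l = true) {a b : α}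
    (ha : a ∈ l) (hb : b ∈ l) (hab : a ≠ b) : r a b = true ∨ r b a = true := by
  have h1 : l.Pairwise (fun a b => a ≠ b → (r a b = true ∨ r b a = true)) :=
    (allP_pairwise h).imp fun h _ => Or.inl h
  have : Std.Symm (fun a b : α => a ≠ b → (r a b = true ∨ r b a = true)) :=
    ⟨fun x y hxy hne => (hxy hne.symm).symm⟩
  exact List.Pairwise.forall_of_forall (fun x _ hx => absurd rfl hx) h1 ha hb hab

theorem beqP_iff {a b : ℕ × ℕ} : beqP a b = true ↔ a = b := by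
  unfold beqP
  rw [Bool.and_eq_true, Nat.beq_eq, Nat.beq_eq, Prod.ext_iff]

theorem sc_inj {N : ℕ} (hN : 0 < N) {a b : ℕ × ℕ} (h : sc N a = sc N b) : a = b := by
  have hN' : (N : ℝ) ≠ 0 := by positivity
  unfold sc at h
  rw [Prod.mk.injEq] at h
  ext
  · have := h.1
    field_simp at this
    exact_mod_cast this
  · have := h.2
    field_simp at this
    exact_mod_cast this

/-- The conditions of the check. -/
structure FData.Ok (D : FData) : Prop where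
  N0 : 0 < D.N
  n0 : 0 < D.n
  hS : ∀ s ∈ D.S, D.okS s = true
  hF : ∀ f ∈ D.F, D.okF f = true
  hB : ∀ v < D.n, D.okB v = true
  hV : ∀ v < D.n, D.okV v = true
  hC : allP (fun a b => !(beqP (D.c a) (D.c b))) (List.range D.n) = true
  hP : allP okP D.S = true
  hFS : ∀ f ∈ D.F, ∀ s ∈ D.S, okFS f s = true
  hFF : allP okFF D.F = true

theorem FData.ok_of_check {D : FData} (h : D.check = true) : D.Ok := by
  unfold FData.check at h
  simp only [Bool.and_eq_true, List.all_eq_true, blt_iff, List.mem_range] at h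
  obtain ⟨h1, h2, h3, h4, h5, h6, h7, h8, h9, h10⟩ := h
  exact ⟨h1, h2, h3, h4, h5, h6, h7, h8, h9, h10⟩

variable {D : FData}

/-- What is known of a listed segment. -/
theorem FData.Ok.seg (o : D.Ok) {s : Sg} (hs : s ∈ D.S) : s.u < D.n ∧ s.v < D.n ∧ s.u ≠ s.v ∧
    D.c s.u = (s.ax, s.ay) ∧ D.c s.v = (s.bx, s.by') ∧ (D.A.getD s.u 0).testBit s.v = true ∧
    (D.A.getD s.v 0).testBit s.u = true := by
  have h := o.hS s hs
  unfold FData.okS at h
  simp only [Bool.and_eq_true, blt_iff, beqP_iff, Bool.not_eq_true'] at h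
  obtain ⟨h1, h2, h3, h4, h5, h6, h7⟩ := h
  refine ⟨h1, h2, fun e => ?_, h4, h5, h6, h7⟩
  rw [e, Nat.beq_refl] at h3
  exact Bool.noConfusion h3

/-- The graph. -/
def FData.gr (D : FData) : SimpleGraph (Fin D.n) where
  Adj a b := a ≠ b ∧ ∃ s ∈ D.S, (s.u = a.1 ∧ s.v = b.1) ∨ (s.u = b.1 ∧ s.v = a.1)
  symm := ⟨fun _ _ h => ⟨h.1.symm, h.2.imp fun _ h2 => ⟨h2.1, h2.2.symm⟩⟩⟩
  loopless := ⟨fun _ h => h.1 rfl⟩

/-- The positions. -/
noncomputable def FData.pos (D : FData) (a : Fin D.n) : ℝ × ℝ := sc D.N (D.c a.1)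

/-- A number as a vertex. -/
def FData.Ok.toF (o : D.Ok) (k : ℕ) : Fin D.n := if h : k < D.n then ⟨k, h⟩ else ⟨0, o.n0⟩

theorem FData.Ok.toF_val (o : D.Ok) {k : ℕ} (h : k < D.n) : (o.toF k).1 = k := by
  unfold FData.Ok.toF
  rw [dif_pos h]

theorem FData.Ok.toF_fin (o : D.Ok) (a : Fin D.n) : o.toF a.1 = a := Fin.ext (o.toF_val a.2)

theorem FData.Ok.adj_of_mem (o : D.Ok) {s : Sg} (hs : s ∈ D.S) :
    D.gr.Adj (o.toF s.u) (o.toF s.v) := by
  obtain ⟨h1, h2, h3, -⟩ := o.seg hs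
  refine ⟨fun h => h3 ?_, s, hs, Or.inl ⟨(o.toF_val h1).symm, (o.toF_val h2).symm⟩⟩
  have := congrArg Fin.val h
  rwa [o.toF_val h1, o.toF_val h2] at this

theorem FData.Ok.adj_of_hasE (o : D.Ok) {a b : ℕ} (h : D.hasE a b = true) :
    D.gr.Adj (o.toF a) (o.toF b) := by
  unfold FData.hasE at h
  rw [List.any_eq_true] at h
  obtain ⟨s, hs, h⟩ := h
  simp only [Bool.or_eq_true, Bool.and_eq_true, Nat.beq_eq] at h
  have := o.adj_of_mem hs
  rcases h with ⟨rfl, rfl⟩ | ⟨rfl, rfl⟩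
  · exact this
  · exact this.symm

theorem FData.Ok.pos_eq (o : D.Ok) {s : Sg} (hs : s ∈ D.S) {a b : Fin D.n}
    (h : s.u = a.1 ∧ s.v = b.1) : D.pos a = s.P D.N ∧ D.pos b = s.Q D.N := by
  obtain ⟨-, -, -, h1, h2, -⟩ := o.seg hs
  unfold FData.pos Sg.P Sg.Q
  rw [← h.1, ← h.2, h1, h2]
  exact ⟨rfl, rfl⟩

theorem FData.Ok.seg_eq (o : D.Ok) {s : Sg} (hs : s ∈ D.S) {a b : Fin D.n}
    (h : (s.u = a.1 ∧ s.v = b.1) ∨ (s.u = b.1 ∧ s.v = a.1)) :
    segment ℝ (D.pos a) (D.pos b) = segment ℝ (s.P D.N) (s.Q D.N) := by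
  rcases h with h | h
  · rw [(o.pos_eq hs h).1, (o.pos_eq hs h).2]
  · rw [(o.pos_eq hs h).1, (o.pos_eq hs h).2, segment_symm]

theorem FData.Ok.pos_inj (o : D.Ok) : Function.Injective D.pos := by
  intro a b h
  have h1 := sc_inj o.N0 h
  by_contra hab
  have hab' : a.1 ≠ b.1 := fun h => hab (Fin.ext h)
  rcases allP_mem o.hC (List.mem_range.2 a.2) (List.mem_range.2 b.2) hab' with h2 | h2
  · rw [Bool.not_eq_true', ← Bool.not_eq_true, beqP_iff] at h2
    exact h2 h1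
  · rw [Bool.not_eq_true', ← Bool.not_eq_true, beqP_iff] at h2
    exact h2 h1.symm

theorem FData.Ok.crossing (o : D.Ok) (a b c d : Fin D.n) (hab : D.gr.Adj a b)
    (hcd : D.gr.Adj c d) (hne : s(a, b) ≠ s(c, d)) (q : ℝ × ℝ)
    (hq1 : q ∈ segment ℝ (D.pos a) (D.pos b)) (hq2 : q ∈ segment ℝ (D.pos c) (D.pos d)) :
    ∃ w : Fin D.n, (w = a ∨ w = b) ∧ (w = c ∨ w = d) ∧ q = D.pos w := by
  obtain ⟨-, s, hs, es⟩ := hab
  obtain ⟨-, t, ht, et⟩ := hcd
  rw [o.seg_eq hs es] at hq1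
  rw [o.seg_eq ht et] at hq2
  have hst : s ≠ t := by
    rintro rfl
    apply hne
    rcases es with ⟨e1, e2⟩ | ⟨e1, e2⟩ <;> rcases et with ⟨e3, e4⟩ | ⟨e3, e4⟩
    · rw [Fin.ext (e1.symm.trans e3), Fin.ext (e2.symm.trans e4)]
    · rw [Fin.ext (e1.symm.trans e3), Fin.ext (e2.symm.trans e4)]; exact Sym2.eq_swap
    · rw [Fin.ext (e1.symm.trans e3), Fin.ext (e2.symm.trans e4)]; exact Sym2.eq_swap
    · rw [Fin.ext (e1.symm.trans e3), Fin.ext (e2.symm.trans e4)]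
  obtain ⟨s1, s2, -, s3, s4, -⟩ := o.seg hs
  obtain ⟨t1, t2, -, t3, t4, -⟩ := o.seg ht
  have key : (s.u = t.u ∧ q = s.P D.N) ∨ (s.u = t.v ∧ q = s.P D.N) ∨
      (s.v = t.u ∧ q = s.Q D.N) ∨ (s.v = t.v ∧ q = s.Q D.N) := by
    rcases allP_mem o.hP hs ht hst with h | h
    · refine okP_spec o.N0 h (fun e => ?_) (fun e => ?_) (fun e => ?_) (fun e => ?_) q hq1 hq2
      · rw [← s3, ← t3, e]
      · rw [← s3, ← t4, e]
      · rw [← s4, ← t3, e]
      · rw [← s4, ← t4, e]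
    · have := okP_spec o.N0 h (fun e => ?_) (fun e => ?_) (fun e => ?_) (fun e => ?_) q hq2 hq1
      · have p1 : t.u = s.u → t.P D.N = s.P D.N := fun e => by
          unfold Sg.P; rw [← s3, ← t3, e]
        have p2 : t.u = s.v → t.P D.N = s.Q D.N := fun e => by
          unfold Sg.P Sg.Q; rw [← s4, ← t3, e]
        have p3 : t.v = s.u → t.Q D.N = s.P D.N := fun e => by
          unfold Sg.P Sg.Q; rw [← s3, ← t4, e]
        have p4 : t.v = s.v → t.Q D.N = s.Q D.N := fun e => by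
          unfold Sg.Q; rw [← s4, ← t4, e]
        rcases this with ⟨e, h5⟩ | ⟨e, h5⟩ | ⟨e, h5⟩ | ⟨e, h5⟩
        · exact Or.inl ⟨e.symm, h5.trans (p1 e)⟩
        · exact Or.inr (Or.inr (Or.inl ⟨e.symm, h5.trans (p2 e)⟩))
        · exact Or.inr (Or.inl ⟨e.symm, h5.trans (p3 e)⟩)
        · exact Or.inr (Or.inr (Or.inr ⟨e.symm, h5.trans (p4 e)⟩))
      · rw [← s3, ← t3, e]
      · rw [← s4, ← t3, e]
      · rw [← s3, ← t4, e]
      · rw [← s4, ← t4, e]
  have hP : s.P D.N = D.pos (o.toF s.u) := by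
    unfold Sg.P FData.pos; rw [o.toF_val s1, s3]
  have hQ : s.Q D.N = D.pos (o.toF s.v) := by
    unfold Sg.Q FData.pos; rw [o.toF_val s2, s4]
  have inS : (o.toF s.u = a ∨ o.toF s.u = b) ∧ (o.toF s.v = a ∨ o.toF s.v = b) := by
    rcases es with ⟨e1, e2⟩ | ⟨e1, e2⟩
    · rw [e1, e2, o.toF_fin, o.toF_fin]
      exact ⟨Or.inl rfl, Or.inr rfl⟩
    · rw [e1, e2, o.toF_fin, o.toF_fin]
      exact ⟨Or.inr rfl, Or.inl rfl⟩
  have inT : (o.toF t.u = c ∨ o.toF t.u = d) ∧ (o.toF t.v = c ∨ o.toF t.v = d) := by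
    rcases et with ⟨e1, e2⟩ | ⟨e1, e2⟩
    · rw [e1, e2, o.toF_fin, o.toF_fin]
      exact ⟨Or.inl rfl, Or.inr rfl⟩
    · rw [e1, e2, o.toF_fin, o.toF_fin]
      exact ⟨Or.inr rfl, Or.inl rfl⟩
  rcases key with ⟨e, h⟩ | ⟨e, h⟩ | ⟨e, h⟩ | ⟨e, h⟩
  · exact ⟨o.toF s.u, inS.1, e ▸ inT.1, h.trans hP⟩
  · exact ⟨o.toF s.u, inS.1, e ▸ inT.2, h.trans hP⟩
  · exact ⟨o.toF s.v, inS.2, e ▸ inT.1, h.trans hQ⟩
  · exact ⟨o.toF s.v, inS.2, e ▸ inT.2, h.trans hQ⟩

theorem FData.Ok.exists_nb (o : D.Ok) (w : Fin D.n) : ∃ x, D.gr.Adj w x := by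
  have h := o.hV w.1 w.2
  unfold FData.okV at h
  rw [List.any_eq_true] at h
  obtain ⟨s, hs, h⟩ := h
  simp only [Bool.or_eq_true, Nat.beq_eq] at h
  have := o.adj_of_mem hs
  rcases h with h | h
  · rw [h, o.toF_fin] at this
    exact ⟨_, this⟩
  · rw [h, o.toF_fin] at this
    exact ⟨_, this.symm⟩

theorem FData.Ok.drawn (o : D.Ok) : Drawn D.gr D.pos := by
  refine ⟨o.pos_inj, o.crossing, ?_⟩
  intro a b w hab hw
  obtain ⟨x, hx⟩ := o.exists_nb w
  by_cases h : s(a, b) = s(w, x)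
  · have : w ∈ s(a, b) := h ▸ Sym2.mem_mk_left w x
    exact Sym2.mem_iff.1 this
  · obtain ⟨y, h1, -, h3⟩ := o.crossing a b w x hab hx h _ hw (left_mem_segment ℝ _ _)
    rw [o.pos_inj h3]
    exact h1

theorem FData.Ok.nbip (o : D.Ok) : NBip D.gr := by
  intro v
  refine ⟨fun u => (D.B.getD v.1 0).testBit u.1, fun p q hp hq hpq => ?_⟩
  have bits : ∀ u : Fin D.n, D.gr.Adj v u → (D.A.getD v.1 0).testBit u.1 = true := by
    rintro u ⟨-, s, hs, h | h⟩
    · obtain ⟨-, -, -, -, -, h1, h2⟩ := o.seg hs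
      rw [h.1, h.2] at h1
      exact h1
    · obtain ⟨-, -, -, -, -, h1, h2⟩ := o.seg hs
      rw [h.1, h.2] at h2
      exact h2
  obtain ⟨-, s, hs, h⟩ := hpq
  have hb := o.hB v.1 v.2
  unfold FData.okB at hb
  have h1 := List.all_eq_true.1 hb s hs
  simp only [Bool.or_eq_true, Bool.not_eq_true', Bool.and_eq_false_iff] at h1
  have b1 := bits p hp
  have b2 := bits q hq
  have key : (D.A.getD v.1 0).testBit s.u = true ∧ (D.A.getD v.1 0).testBit s.v = true := by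
    rcases h with h | h
    · rw [h.1, h.2]; exact ⟨b1, b2⟩
    · rw [h.1, h.2]; exact ⟨b2, b1⟩
  rcases h1 with (h1 | h1) | h1
  · rw [key.1] at h1; exact Bool.noConfusion h1
  · rw [key.2] at h1; exact Bool.noConfusion h1
  · rcases h with h | h
    · rw [h.1, h.2] at h1
      intro e
      simp only at e
      rw [e] at h1
      simp at h1
    · rw [h.1, h.2] at h1
      intro e
      simp only at e
      rw [e] at h1
      simp at h1

/-- Corners of the faces. -/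
def FData.Ok.fu (o : D.Ok) (i : Fin D.F.length) : Fin D.n := o.toF (D.F.get i).u
def FData.Ok.fv (o : D.Ok) (i : Fin D.F.length) : Fin D.n := o.toF (D.F.get i).v
def FData.Ok.fw (o : D.Ok) (i : Fin D.F.length) : Fin D.n := o.toF (D.F.get i).w

theorem FData.Ok.face (o : D.Ok) {f : Fc} (hf : f ∈ D.F) : f.u < D.n ∧ f.v < D.n ∧ f.w < D.n ∧
    D.c f.u = (f.ux, f.uy) ∧ D.c f.v = (f.vx, f.vy) ∧ D.c f.w = (f.wx, f.wy) ∧
    nc f.ux f.uy f.vx f.vy f.wx f.wy = true ∧ D.hasE f.u f.v = true ∧ D.hasE f.v f.w = true ∧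
    D.hasE f.u f.w = true := by
  have h := o.hF f hf
  unfold FData.okF at h
  simp only [Bool.and_eq_true, blt_iff, beqP_iff] at h
  exact h

theorem FData.Ok.fpos (o : D.Ok) (i : Fin D.F.length) : D.pos (o.fu i) = (D.F.get i).U D.N ∧
    D.pos (o.fv i) = (D.F.get i).V D.N ∧ D.pos (o.fw i) = (D.F.get i).W D.N := by
  obtain ⟨h1, h2, h3, h4, h5, h6, -⟩ := o.face (List.get_mem D.F i)
  refine ⟨?_, ?_, ?_⟩
  · unfold FData.pos FData.Ok.fu Fc.U; rw [o.toF_val h1, h4]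
  · unfold FData.pos FData.Ok.fv Fc.V; rw [o.toF_val h2, h5]
  · unfold FData.pos FData.Ok.fw Fc.W; rw [o.toF_val h3, h6]

theorem FData.Ok.tri_iff (o : D.Ok) (i : Fin D.F.length) (q : ℝ × ℝ) :
    OpenTri (D.pos (o.fu i)) (D.pos (o.fv i)) (D.pos (o.fw i)) q ↔ (D.F.get i).Op D.N q := by
  rw [(o.fpos i).1, (o.fpos i).2.1, (o.fpos i).2.2]
  exact Iff.rfl

theorem FData.Ok.isFrame (o : D.Ok) : IsFrame D.gr D.pos o.fu o.fv o.fw := by
  have hedge : ∀ i a b, D.gr.Adj a b → ∀ q ∈ segment ℝ (D.pos a) (D.pos b),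
      ¬ OpenTri (D.pos (o.fu i)) (D.pos (o.fv i)) (D.pos (o.fw i)) q := by
    rintro i a b ⟨-, s, hs, es⟩ q hq h
    rw [o.seg_eq hs es] at hq
    rw [o.tri_iff] at h
    exact okFS_spec o.N0 (o.face (List.get_mem D.F i)).2.2.2.2.2.2.1
      (o.hFS _ (List.get_mem D.F i) s hs) q hq h
  refine ⟨o.drawn, o.nbip, ?_, ?_, ?_, ?_, ?_, hedge, ?_⟩
  · intro i
    exact o.adj_of_hasE (o.face (List.get_mem D.F i)).2.2.2.2.2.2.2.1
  · intro i
    exact o.adj_of_hasE (o.face (List.get_mem D.F i)).2.2.2.2.2.2.2.2.1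
  · intro i
    exact o.adj_of_hasE (o.face (List.get_mem D.F i)).2.2.2.2.2.2.2.2.2
  · intro i
    rw [(o.fpos i).1, (o.fpos i).2.1, (o.fpos i).2.2]
    exact (nc_iff o.N0 _ _ _).1 (o.face (List.get_mem D.F i)).2.2.2.2.2.2.1
  · intro i a h
    obtain ⟨x, hx⟩ := o.exists_nb a
    exact hedge i a x hx _ (left_mem_segment ℝ _ _) h
  · intro i j hij q h1 h2
    rw [o.tri_iff] at h1 h2
    have ni := (o.face (List.get_mem D.F i)).2.2.2.2.2.2.1
    have nj := (o.face (List.get_mem D.F j)).2.2.2.2.2.2.1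
    have hp := List.pairwise_iff_get.1 (allP_pairwise o.hFF)
    rcases lt_or_gt_of_ne hij with h | h
    · exact okFF_spec o.N0 ni nj (hp i j h) q h1 h2
    · exact okFF_spec o.N0 nj ni (hp j i h) q h2 h1

/-! ## Inside the reference triangle -/

structure FData.OkIn (D : FData) : Prop where
  n2 : 2 < D.n
  c0 : D.c 0 = (0, 0)
  c1 : D.c 1 = (D.N, 0)
  c2 : D.c 2 = (0, D.N)
  e01 : D.hasE 0 1 = true
  e12 : D.hasE 1 2 = true
  e02 : D.hasE 0 2 = true
  ins : ∀ v < D.n, 3 ≤ v → 0 < (D.c v).1 ∧ 0 < (D.c v).2 ∧ (D.c v).1 + (D.c v).2 < D.N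

theorem FData.okIn_of_check {D : FData} (h : D.checkIn = true) : D.OkIn := by
  unfold FData.checkIn at h
  simp only [Bool.and_eq_true, List.all_eq_true, blt_iff, List.mem_range, beqP_iff,
    Bool.or_eq_true] at h
  obtain ⟨h1, h2, h3, h4, h5, h6, h7, h8⟩ := h
  refine ⟨h1, h2, h3, h4, h5, h6, h7, fun v hv h3 => ?_⟩
  rcases h8 v hv with h | h
  · omega
  · exact h

theorem openRef_of_bary {a b c q : ℝ × ℝ} (ha : ClosedRef a) (hb : ClosedRef b) (hc : ClosedRef c)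
    (hnd : cross a b c ≠ 0) (hq : OpenTri a b c q) : OpenRef q := by
  obtain ⟨r, s, t, hr, hs, ht, h1, rfl⟩ := hq.bary
  obtain ⟨a1, a2, a3⟩ := ha
  obtain ⟨b1, b2, b3⟩ := hb
  obtain ⟨c1, c2, c3⟩ := hc
  have pos3 : ∀ x y z : ℝ, 0 ≤ x → 0 ≤ y → 0 ≤ z → ¬ (x = 0 ∧ y = 0 ∧ z = 0) →
      0 < r * x + s * y + t * z := by
    intro x y z hx hy hz h
    have e1 := mul_nonneg hr.le hx
    have e2 := mul_nonneg hs.le hy
    have e3 := mul_nonneg ht.le hz
    by_contra hle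
    apply h
    have f1 : r * x = 0 := by linarith
    have f2 : s * y = 0 := by linarith
    have f3 : t * z = 0 := by linarith
    exact ⟨(mul_eq_zero.1 f1).resolve_left hr.ne', (mul_eq_zero.1 f2).resolve_left hs.ne',
      (mul_eq_zero.1 f3).resolve_left ht.ne'⟩
  refine ⟨?_, ?_, ?_⟩
  · refine pos3 _ _ _ a1 b1 c1 ?_
    rintro ⟨h2, h3, h4⟩
    apply hnd
    unfold cross
    rw [h2, h3, h4]
    ring
  · refine pos3 _ _ _ a2 b2 c2 ?_
    rintro ⟨h2, h3, h4⟩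
    apply hnd
    unfold cross
    rw [h2, h3, h4]
    ring
  · have := pos3 (1 - a.1 - a.2) (1 - b.1 - b.2) (1 - c.1 - c.2) (by linarith) (by linarith)
      (by linarith) ?_
    · simp only
      have e : r = 1 - s - t := by linarith
      subst e
      nlinarith
    · rintro ⟨h2, h3, h4⟩
      apply hnd
      unfold cross
      have e1 : a.1 = 1 - a.2 := by linarith
      have e2 : b.1 = 1 - b.2 := by linarith
      have e3 : c.1 = 1 - c.2 := by linarith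
      rw [e1, e2, e3]
      ring

theorem FData.Ok.closed (o : D.Ok) (p : D.OkIn) (a : Fin D.n) : ClosedRef (D.pos a) := by
  have hN : (0 : ℝ) < D.N := by exact_mod_cast o.N0
  by_cases h : 3 ≤ a.1
  · obtain ⟨h1, h2, h3⟩ := p.ins a.1 a.2 h
    unfold FData.pos sc
    refine ⟨by positivity, by positivity, ?_⟩
    simp only
    rw [← add_div, div_le_one hN]
    exact_mod_cast h3.le
  · have h4 : a.1 = 0 ∨ a.1 = 1 ∨ a.1 = 2 := by omega
    unfold FData.pos sc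
    rcases h4 with h | h | h
    · rw [h, p.c0]
      refine ⟨by simp, by simp, by simp⟩
    · rw [h, p.c1]
      refine ⟨by simp; positivity, by simp, ?_⟩
      simp [div_self hN.ne']
    · rw [h, p.c2]
      refine ⟨by simp, by simp; positivity, ?_⟩
      simp [div_self hN.ne']

theorem FData.Ok.inside (o : D.Ok) (p : D.OkIn) (a : Fin D.n) (h : 3 ≤ a.1) :
    OpenRef (D.pos a) := by
  have hN : (0 : ℝ) < D.N := by exact_mod_cast o.N0
  obtain ⟨h1, h2, h3⟩ := p.ins a.1 a.2 h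
  have h1' : (0 : ℝ) < (D.c a.1).1 := by exact_mod_cast h1
  have h2' : (0 : ℝ) < (D.c a.1).2 := by exact_mod_cast h2
  unfold FData.pos sc
  refine ⟨by positivity, by positivity, ?_⟩
  simp only
  rw [← add_div, div_lt_one hN]
  exact_mod_cast h3

/-- Patches from data.  The same set `K` is killed in every listed face. -/
theorem kills_of_check {LL : Finset ℕ → Prop} (D : FData) (hc : D.check = true)
    (hi : D.checkIn = true) (L : ℕ → Finset ℕ) (hL : ∀ a, 3 ≤ a → a < D.n → LL (L a))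
    (K : Fc → ℕ → ℕ → ℕ → Prop) (hK : ∀ f ∈ D.F, Kills LL (K f)) (T : ℕ → ℕ → ℕ → Prop)
    (hT : ∀ φ : ℕ → ℕ, (∀ s ∈ D.S, φ s.u ≠ φ s.v) → (∀ a, 3 ≤ a → a < D.n → φ a ∈ L a) →
      (∀ f ∈ D.F, ¬ K f (φ f.u) (φ f.v) (φ f.w)) → ¬ T (φ 0) (φ 1) (φ 2)) : Kills LL T := by
  have o := FData.ok_of_check hc
  have p := FData.okIn_of_check hi
  have hN : (D.N : ℝ) ≠ 0 := by
    have := o.N0
    positivity
  have n2 := p.n2
  have v0 := o.toF_val (show 0 < D.n by omega)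
  have v1 := o.toF_val (show 1 < D.n by omega)
  have v2 := o.toF_val (show 2 < D.n by omega)
  have ge3 : ∀ a : Fin D.n, a ≠ o.toF 0 → a ≠ o.toF 1 → a ≠ o.toF 2 → 3 ≤ a.1 := by
    intro a h0 h1 h2
    by_contra h
    have h4 : a.1 = 0 ∨ a.1 = 1 ∨ a.1 = 2 := by omega
    rcases h4 with h | h | h
    · exact h0 (Fin.ext (h.trans v0.symm))
    · exact h1 (Fin.ext (h.trans v1.symm))
    · exact h2 (Fin.ext (h.trans v2.symm))
  refine kills_of_frame o.isFrame (o.toF 0) (o.toF 1) (o.toF 2) ?_ ?_ ?_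
    (o.adj_of_hasE p.e01) (o.adj_of_hasE p.e12) (o.adj_of_hasE p.e02) ?_ ?_ (fun a => L a.1) ?_
    (fun i => K (D.F.get i)) (fun i => hK _ (List.get_mem D.F i)) T ?_
  · unfold FData.pos sc
    rw [v0, p.c0]
    simp
  · unfold FData.pos sc
    rw [v1, p.c1]
    simp [div_self hN]
  · unfold FData.pos sc
    rw [v2, p.c2]
    simp [div_self hN]
  · intro a h0 h1 h2
    exact o.inside p a (ge3 a h0 h1 h2)
  · intro i q hq
    exact openRef_of_bary (o.closed p _) (o.closed p _) (o.closed p _) (o.isFrame.nondeg i) hq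
  · intro a h0 h1 h2
    exact hL a.1 (ge3 a h0 h1 h2) a.2
  · intro φ h1 h2 h3
    have h4 := hT (fun k => φ (o.toF k)) ?_ ?_ ?_
    · exact h4
    · intro s hs
      exact h1 _ _ (o.adj_of_mem hs)
    · intro a ha hn
      have hne : ∀ k, k < 3 → o.toF a ≠ o.toF k := by
        intro k hk he
        have := congrArg Fin.val he
        rw [o.toF_val hn, o.toF_val (show k < D.n by omega)] at this
        omega
      have := h2 (o.toF a) (hne 0 (by omega)) (hne 1 (by omega)) (hne 2 (by omega))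
      rw [o.toF_val hn] at this
      exact this
    · intro f hf
      obtain ⟨i, rfl⟩ := List.mem_iff_get.1 hf
      exact h3 i

/-- The final graph from data. -/
theorem final_of_check {LL : Finset ℕ → Prop} (D : FData) (hc : D.check = true)
    (L : ℕ → Finset ℕ) (hL : ∀ a, a < D.n → LL (L a))
    (K : Fc → ℕ → ℕ → ℕ → Prop) (hK : ∀ f ∈ D.F, Kills LL (K f))
    (hT : ∀ φ : ℕ → ℕ, (∀ s ∈ D.S, φ s.u ≠ φ s.v) → (∀ a, a < D.n → φ a ∈ L a) →
      (∀ f ∈ D.F, ¬ K f (φ f.u) (φ f.v) (φ f.w)) → False) :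
    ∃ (n : ℕ) (G' : SimpleGraph (Fin n)) (f' : Fin n → ℝ × ℝ) (L' : Fin n → Finset ℕ),
      Drawn G' f' ∧ NBip G' ∧ (∀ a, LL (L' a)) ∧
      ¬ ∃ φ : Fin n → ℕ, (∀ a b, G'.Adj a b → φ a ≠ φ b) ∧ ∀ a, φ a ∈ L' a := by
  have o := FData.ok_of_check hc
  refine final_of_frame o.isFrame (fun a => L a.1) (fun a => hL a.1 a.2)
    (fun i => K (D.F.get i)) (fun i => hK _ (List.get_mem D.F i)) ?_
  intro φ h1 h2 h3
  refine hT (fun k => φ (o.toF k)) ?_ ?_ ?_
  · intro s hs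
    exact h1 _ _ (o.adj_of_mem hs)
  · intro a ha
    have := h2 (o.toF a)
    rw [o.toF_val ha] at this
    exact this
  · intro f hf
    obtain ⟨i, rfl⟩ := List.mem_iff_get.1 hf
    exact h3 i

end Pool.TRI
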