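import Pool.Agent.H76.TRI.Defs

/-!
# Affine geometry of triangles
-/

set_option autoImplicit false

namespace Pool.TRI

theorem aff_inj {a b c : ℝ × ℝ} (h : cross a b c ≠ 0) {q r : ℝ × ℝ}
    (e : aff a b c q = aff a b c r) : q = r := by
  unfold aff at e
  rw [Prod.mk.injEq] at e
  obtain ⟨e1, e2⟩ := e
  have h1 : cross a b c * (q.1 - r.1) = 0 := by
    unfold cross
    linear_combination (c.2 - a.2) * e1 - (c.1 - a.1) * e2
  have h2 : cross a b c * (q.2 - r.2) = 0 := by
    unfold cross
    linear_combination (b.1 - a.1) * e2 - (b.2 - a.2) * e1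
  have h3 := (mul_eq_zero.1 h1).resolve_left h
  have h4 := (mul_eq_zero.1 h2).resolve_left h
  ext <;> linarith

theorem aff_x (a b c : ℝ × ℝ) : aff a b c (0, 0) = a := by
  unfold aff; ext <;> simp

theorem aff_y (a b c : ℝ × ℝ) : aff a b c (1, 0) = b := by
  unfold aff; ext <;> simp

theorem aff_z (a b c : ℝ × ℝ) : aff a b c (0, 1) = c := by
  unfold aff; ext <;> simp

/-- Points of the segment between images are images of points of the segment. -/
theorem seg_aff {a b c q r p : ℝ × ℝ} (h : p ∈ segment ℝ (aff a b c q) (aff a b c r)) :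
    ∃ p' ∈ segment ℝ q r, p = aff a b c p' := by
  obtain ⟨s, t, hs, ht, hst, rfl⟩ := h
  refine ⟨s • q + t • r, ⟨s, t, hs, ht, hst, rfl⟩, ?_⟩
  unfold aff
  have e : t = 1 - s := by linarith
  subst e
  ext
  · simp only [Prod.smul_fst, Prod.fst_add, smul_eq_mul, Prod.smul_snd, Prod.snd_add]; ring
  · simp only [Prod.smul_fst, Prod.fst_add, smul_eq_mul, Prod.smul_snd, Prod.snd_add]; ring

theorem aff_seg {a b c q r p' : ℝ × ℝ} (h : p' ∈ segment ℝ q r) :
    aff a b c p' ∈ segment ℝ (aff a b c q) (aff a b c r) := by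
  obtain ⟨s, t, hs, ht, hst, rfl⟩ := h
  refine ⟨s, t, hs, ht, hst, ?_⟩
  unfold aff
  have e : t = 1 - s := by linarith
  subst e
  ext
  · simp only [Prod.smul_fst, Prod.fst_add, smul_eq_mul, Prod.smul_snd, Prod.snd_add]; ring
  · simp only [Prod.smul_fst, Prod.fst_add, smul_eq_mul, Prod.smul_snd, Prod.snd_add]; ring

/-- A closed reference triangle. -/
def ClosedRef (q : ℝ × ℝ) : Prop := 0 ≤ q.1 ∧ 0 ≤ q.2 ∧ q.1 + q.2 ≤ 1

theorem OpenRef.closed {q : ℝ × ℝ} (h : OpenRef q) : ClosedRef q :=
  ⟨h.1.le, h.2.1.le, h.2.2.le⟩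

/-- From an inner point to a point of the closed triangle: all inner, except the other end. -/
theorem seg_open {q r p : ℝ × ℝ} (hq : OpenRef q) (hr : ClosedRef r) (h : p ∈ segment ℝ q r) :
    OpenRef p ∨ p = r := by
  obtain ⟨s, t, hs, ht, hst, rfl⟩ := h
  rcases hs.eq_or_lt with rfl | hs
  · right
    have : t = 1 := by linarith
    subst this
    simp
  · left
    obtain ⟨h1, h2, h3⟩ := hq
    obtain ⟨g1, g2, g3⟩ := hr
    refine ⟨?_, ?_, ?_⟩
    · have : (s • q + t • r).1 = s * q.1 + t * r.1 := by simp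
      rw [this]
      have := mul_pos hs h1
      have := mul_nonneg ht g1
      linarith
    · have : (s • q + t • r).2 = s * q.2 + t * r.2 := by simp
      rw [this]
      have := mul_pos hs h2
      have := mul_nonneg ht g2
      linarith
    · have e1 : (s • q + t • r).1 = s * q.1 + t * r.1 := by simp
      have e2 : (s • q + t • r).2 = s * q.2 + t * r.2 := by simp
      rw [e1, e2]
      have i1 := mul_lt_mul_of_pos_left h3 hs
      have i2 := mul_le_mul_of_nonneg_left g3 ht
      nlinarith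

end Pool.TRI
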