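import Pool.Agent.H76.TRI.Comp

/-!
# The composition theorem
-/

set_option autoImplicit false

open Classical

namespace Pool.TRI

variable {LL : Finset ℕ → Prop} {V ι : Type} {G : SimpleGraph V} {f : V → ℝ × ℝ}
  {u v w : ι → V} {Q : ι → Patch LL}

/-- Two corners different from a given one are joined by an edge and see different colours. -/
theorem Patch.bip_corner (P : Patch LL) {e d d' : P.W} {g : P.W → Bool}
    (hg : ∀ s t, P.H.Adj e s → P.H.Adj e t → P.H.Adj s t → g s ≠ g t)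
    (he : P.IsC e) (hd : P.IsC d) (hd' : P.IsC d') (h1 : e ≠ d) (h2 : e ≠ d') (h3 : d ≠ d') :
    g d ≠ g d' :=
  hg d d' (P.corner_adj he hd h1) (P.corner_adj he hd' h2) (P.corner_adj hd hd' h3)

theorem bx1 : ∀ a b c d : Bool, a ≠ b → xor a (xor c d) ≠ xor b (xor c d) := by decide

theorem bx2 : ∀ a c : Bool, xor a (xor a c) = c := by decide

theorem bx3 : ∀ a b c d : Bool, a ≠ b → c ≠ d → xor b (xor a c) = d := by decide

/-- The flip that makes the colouring of a patch neighbourhood agree with that of the frame. -/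
theorem flip_exists (hF : IsFrame G f u v w) {i : ι} {e : (Q i).W} {a : V}
    (hea : rho u v w Q i e = Sum.inl a) {g : V → Bool}
    (hg : ∀ b c, G.Adj a b → G.Adj a c → G.Adj b c → g b ≠ g c) :
    ∃ (F : (Q i).W → Bool),
      (∀ s t, (Q i).H.Adj e s → (Q i).H.Adj e t → (Q i).H.Adj s t → F s ≠ F t) ∧
      (∀ (s : (Q i).W) (b : V), s ≠ e → rho u v w Q i s = Sum.inl b → F s = g b) := by
  have he := corner_of_inl hea
  obtain ⟨k, hk⟩ := (Q i).nbip e
  -- the two other corners
  obtain ⟨d, d', hd, hd', h1, h2, h3, h4⟩ : ∃ d d' : (Q i).W, (Q i).IsC d ∧ (Q i).IsC d' ∧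
      e ≠ d ∧ e ≠ d' ∧ d ≠ d' ∧ ∀ s, (Q i).IsC s → s ≠ e → s = d ∨ s = d' := by
    rcases he with rfl | rfl | rfl
    · refine ⟨(Q i).y, (Q i).z, (Q i).cy, (Q i).cz, (Q i).xy.ne, (Q i).xz.ne, (Q i).yz.ne, ?_⟩
      rintro s (rfl | rfl | rfl) hs
      · exact absurd rfl hs
      · exact Or.inl rfl
      · exact Or.inr rfl
    · refine ⟨(Q i).x, (Q i).z, (Q i).cx, (Q i).cz, (Q i).xy.ne', (Q i).yz.ne, (Q i).xz.ne, ?_⟩
      rintro s (rfl | rfl | rfl) hs
      · exact Or.inl rfl
      · exact absurd rfl hs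
      · exact Or.inr rfl
    · refine ⟨(Q i).x, (Q i).y, (Q i).cx, (Q i).cy, (Q i).xz.ne', (Q i).yz.ne', (Q i).xy.ne, ?_⟩
      rintro s (rfl | rfl | rfl) hs
      · exact Or.inl rfl
      · exact Or.inr rfl
      · exact absurd rfl hs
  obtain ⟨b, hb⟩ := rho_corner (u := u) (v := v) (w := w) hd
  obtain ⟨b', hb'⟩ := rho_corner (u := u) (v := v) (w := w) hd'
  have kd := (Q i).bip_corner hk he hd hd' h1 h2 h3
  have gb : g b ≠ g b' := hg b b' (corner_adj' hF h1 hea hb) (corner_adj' hF h2 hea hb')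
    (corner_adj' hF h3 hb hb')
  refine ⟨fun s => xor (k s) (xor (k d) (g b)), ?_, ?_⟩
  · intro s t hs ht hst
    exact bx1 _ _ _ _ (hk s t hs ht hst)
  · intro s c hs hc
    rcases h4 s (corner_of_inl hc) hs with rfl | rfl
    · have : c = b := Sum.inl.inj (hc.symm.trans hb)
      subst this
      exact bx2 _ _
    · have : c = b' := Sum.inl.inj (hc.symm.trans hb')
      subst this
      exact bx3 _ _ _ _ kd gb

theorem nbip_CG (hF : IsFrame G f u v w) : NBip (CG hF Q) := by
  rintro (a | ⟨i, s⟩)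
  · obtain ⟨g, hg⟩ := hF.nbip a
    have key : ∀ i : ι, ∃ F : (Q i).W → Bool, ∀ e : (Q i).W, rho u v w Q i e = Sum.inl a →
        (∀ s t, (Q i).H.Adj e s → (Q i).H.Adj e t → (Q i).H.Adj s t → F s ≠ F t) ∧
        (∀ (s : (Q i).W) (b : V), s ≠ e → rho u v w Q i s = Sum.inl b → F s = g b) := by
      intro i
      by_cases h : ∃ e : (Q i).W, rho u v w Q i e = Sum.inl a
      · obtain ⟨e, he⟩ := h
        obtain ⟨F, h1, h2⟩ := flip_exists hF he hg
        refine ⟨F, fun e' he' => ?_⟩
        have : e' = e := rho_inj hF (he'.trans he.symm)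
        subst this
        exact ⟨h1, h2⟩
      · exact ⟨fun _ => false, fun e he => absurd ⟨e, he⟩ h⟩
    choose F hFF using key
    -- colour of a vertex of the composite
    let C : CV V Q → Bool := fun q => match q with
      | Sum.inl b => g b
      | Sum.inr q => F q.1 q.2.1
    have hC : ∀ (i : ι) (e s : (Q i).W), rho u v w Q i e = Sum.inl a → s ≠ e →
        C (rho u v w Q i s) = F i s := by
      intro i e s he hs
      by_cases h : (Q i).IsC s
      · obtain ⟨b, hb⟩ := rho_corner (u := u) (v := v) (w := w) h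
        rw [hb]
        exact ((hFF i e he).2 s b hs hb).symm
      · rw [rho_in h]
    refine ⟨C, fun p q hp hq hpq => ?_⟩
    -- an edge of a patch between neighbours of a
    rcases adj_cases hF hpq with ⟨b, c, rfl, rfl, hbc⟩ | ⟨i, s, t, hst, rfl, rfl, hc⟩
    · exact hg b c ((adj_inl hF).1 hp) ((adj_inl hF).1 hq) hbc
    · -- a must be a corner of the face i
      have hcor : ∃ e : (Q i).W, rho u v w Q i e = Sum.inl a := by
        have main : ∀ s' : (Q i).W, ¬ (Q i).IsC s' →
            (CG hF Q).Adj (Sum.inl a) (rho u v w Q i s') →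
            ∃ e : (Q i).W, rho u v w Q i e = Sum.inl a := by
          intro s' h1 h2
          rcases adj_cases hF h2 with ⟨b, c, -, h3, -⟩ | ⟨j, s2, t2, h3, h4, h5, -⟩
          · rw [rho_in h1] at h3
            cases h3
          · have : j = i := by
              by_contra hji
              rw [rho_in h1] at h5
              by_cases h6 : (Q j).IsC t2
              · obtain ⟨b, hb⟩ := rho_corner (u := u) (v := v) (w := w) h6
                rw [hb] at h5
                cases h5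
              · rw [rho_in h6] at h5
                exact hji (congrArg Sigma.fst (Sum.inr.inj h5)).symm
            subst this
            exact ⟨s2, h4.symm⟩
        by_cases hs : (Q i).IsC s
        · exact main t (fun h => hc ⟨hs, h⟩) hq
        · exact main s hs hp
      obtain ⟨e, he⟩ := hcor
      rw [← he] at hp hq
      have hp' := (adj_rho hF).1 hp
      have hq' := (adj_rho hF).1 hq
      rw [hC i e s he hp'.ne', hC i e t he hq'.ne']
      exact (hFF i e he).1 s t hp' hq' hst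
  · obtain ⟨k, hk⟩ := (Q i).nbip s.1
    let C : CV V Q → Bool := fun q =>
      if h : ∃ t : (Q i).W, rho u v w Q i t = q then k h.choose else false
    have hC : ∀ t : (Q i).W, C (rho u v w Q i t) = k t := by
      intro t
      have h : ∃ t' : (Q i).W, rho u v w Q i t' = rho u v w Q i t := ⟨t, rfl⟩
      change (if h : ∃ t' : (Q i).W, rho u v w Q i t' = rho u v w Q i t then k h.choose else false)
        = k t
      rw [dif_pos h, rho_inj hF h.choose_spec]
    have hs : (Sum.inr ⟨i, s⟩ : CV V Q) = rho u v w Q i s.1 := (rho_in s.2).symm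
    have nb : ∀ q : CV V Q, (CG hF Q).Adj (Sum.inr ⟨i, s⟩) q → ∃ t : (Q i).W,
        q = rho u v w Q i t := by
      intro q hq
      rcases adj_cases hF hq with ⟨b, c, h3, -, -⟩ | ⟨j, s2, t2, h3, h4, h5, -⟩
      · cases h3
      · have : j = i := by
          by_contra hji
          by_cases h6 : (Q j).IsC s2
          · obtain ⟨b, hb⟩ := rho_corner (u := u) (v := v) (w := w) h6
            rw [hb] at h4
            cases h4
          · rw [rho_in h6] at h4
            exact hji (congrArg Sigma.fst (Sum.inr.inj h4)).symm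
        subst this
        exact ⟨t2, h5⟩
    refine ⟨C, fun p q hp hq hpq => ?_⟩
    obtain ⟨p', rfl⟩ := nb p hp
    obtain ⟨q', rfl⟩ := nb q hq
    rw [hC, hC]
    rw [hs] at hp hq
    exact hk p' q' ((adj_rho hF).1 hp) ((adj_rho hF).1 hq) ((adj_rho hF).1 hpq)

/-- Lists of the composite. -/
def cL (L : V → Finset ℕ) (Q : ι → Patch LL) : CV V Q → Finset ℕ
  | Sum.inl a => L a
  | Sum.inr q => (Q q.1).L q.2.1

/-- A colouring of the composite restricts to the frame. -/
theorem restrict (hF : IsFrame G f u v w) {K : ι → ℕ → ℕ → ℕ → Prop}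
    (hQ : ∀ i a b c, K i a b c → ¬ (Q i).Ext a b c) (L : V → Finset ℕ) (φ : CV V Q → ℕ)
    (h1 : ∀ p q, (CG hF Q).Adj p q → φ p ≠ φ q)
    (h2 : ∀ q, φ (Sum.inr q) ∈ cL L Q (Sum.inr q)) :
    (∀ a b, G.Adj a b → φ (Sum.inl a) ≠ φ (Sum.inl b)) ∧
    ∀ i, ¬ K i (φ (Sum.inl (u i))) (φ (Sum.inl (v i))) (φ (Sum.inl (w i))) := by
  refine ⟨fun a b hab => h1 _ _ ((adj_inl hF).2 hab), fun i hi => hQ i _ _ _ hi ?_⟩
  refine ⟨fun s => φ (rho u v w Q i s), fun s t hst => h1 _ _ ((adj_rho hF).2 hst), ?_, ?_, ?_, ?_⟩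
  · intro s e1 e2 e3
    have hs : ¬ (Q i).IsC s := by
      rintro (h | h | h)
      · exact e1 h
      · exact e2 h
      · exact e3 h
    have := h2 ⟨i, ⟨s, hs⟩⟩
    change φ (rho u v w Q i s) ∈ _
    rw [rho_in hs]
    exact this
  · change φ (rho u v w Q i (Q i).x) = _
    rw [rho_x]
  · change φ (rho u v w Q i (Q i).y) = _
    rw [rho_y]
  · change φ (rho u v w Q i (Q i).z) = _
    rw [rho_z]

theorem finite_CV [Finite V] [Finite ι] : Finite (CV V Q) := by
  have : ∀ i, Finite ((Q i).Inner) := fun i => by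
    have := (Q i).fin
    exact Subtype.finite
  exact inferInstance

/-- A frame drawn in the reference triangle, with patches in its faces, gives a patch. -/
theorem kills_of_frame [Finite V] [Finite ι] (hF : IsFrame G f u v w) (x y z : V)
    (px : f x = (0, 0)) (py : f y = (1, 0)) (pz : f z = (0, 1))
    (xy : G.Adj x y) (yz : G.Adj y z) (xz : G.Adj x z)
    (inside : ∀ a, a ≠ x → a ≠ y → a ≠ z → OpenRef (f a))
    (face_in : ∀ i q, OpenTri (f (u i)) (f (v i)) (f (w i)) q → OpenRef q)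
    (L : V → Finset ℕ) (hL : ∀ a, a ≠ x → a ≠ y → a ≠ z → LL (L a))
    (K : ι → ℕ → ℕ → ℕ → Prop) (hK : ∀ i, Kills LL (K i)) (T : ℕ → ℕ → ℕ → Prop)
    (hT : ∀ φ : V → ℕ, (∀ a b, G.Adj a b → φ a ≠ φ b) →
      (∀ a, a ≠ x → a ≠ y → a ≠ z → φ a ∈ L a) →
      (∀ i, ¬ K i (φ (u i)) (φ (v i)) (φ (w i))) → ¬ T (φ x) (φ y) (φ z)) :
    Kills LL T := by
  choose Q hQ using hK
  refine ⟨⟨CV V Q, finite_CV, CG hF Q, cpos f u v w Q, Sum.inl x, Sum.inl y, Sum.inl z, cL L Q,
    drawn_CG hF, nbip_CG hF, px, py, pz, (adj_inl hF).2 xy, (adj_inl hF).2 yz,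
    (adj_inl hF).2 xz, ?_, ?_⟩, ?_⟩
  · rintro (a | ⟨i, s⟩) h1 h2 h3
    · exact inside a (fun h => h1 (congrArg _ h)) (fun h => h2 (congrArg _ h))
        (fun h => h3 (congrArg _ h))
    · exact face_in i _ (OF_inr i s)
  · rintro (a | ⟨i, s⟩) h1 h2 h3
    · exact hL a (fun h => h1 (congrArg _ h)) (fun h => h2 (congrArg _ h))
        (fun h => h3 (congrArg _ h))
    · exact (Q i).lists s.1 (Patch.not_isC s.2).1 (Patch.not_isC s.2).2.1 (Patch.not_isC s.2).2.2
  · rintro a b c hT' ⟨φ, h1, h2, e1, e2, e3⟩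
    simp only at h1 h2 e1 e2 e3
    have h3 := restrict hF hQ L φ h1 (fun q => h2 (Sum.inr q) (by simp) (by simp) (by simp))
    refine hT (fun a => φ (Sum.inl a)) h3.1 ?_ h3.2 (by rw [e1, e2, e3]; exact hT')
    intro a g1 g2 g3
    exact h2 (Sum.inl a) (fun h => g1 (Sum.inl.inj h)) (fun h => g2 (Sum.inl.inj h))
      (fun h => g3 (Sum.inl.inj h))

/-- The final frame: no list colouring at all. -/
theorem final_of_frame [Finite V] [Finite ι] (hF : IsFrame G f u v w)
    (L : V → Finset ℕ) (hL : ∀ a, LL (L a))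
    (K : ι → ℕ → ℕ → ℕ → Prop) (hK : ∀ i, Kills LL (K i))
    (hT : ∀ φ : V → ℕ, (∀ a b, G.Adj a b → φ a ≠ φ b) → (∀ a, φ a ∈ L a) →
      (∀ i, ¬ K i (φ (u i)) (φ (v i)) (φ (w i))) → False) :
    ∃ (n : ℕ) (G' : SimpleGraph (Fin n)) (f' : Fin n → ℝ × ℝ) (L' : Fin n → Finset ℕ),
      Drawn G' f' ∧ NBip G' ∧ (∀ a, LL (L' a)) ∧
      ¬ ∃ φ : Fin n → ℕ, (∀ a b, G'.Adj a b → φ a ≠ φ b) ∧ ∀ a, φ a ∈ L' a := by
  choose Q hQ using hK
  have hfin : Finite (CV V Q) := finite_CV
  obtain ⟨n, ⟨e⟩⟩ := Finite.exists_equiv_fin (CV V Q)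
  refine ⟨n, (CG hF Q).comap e.symm, fun a => cpos f u v w Q (e.symm a),
    fun a => cL L Q (e.symm a), ?_, ?_, ?_, ?_⟩
  · obtain ⟨h1, h2, h3⟩ := drawn_CG (Q := Q) hF
    refine ⟨fun a b h => e.symm.injective (h1 h), ?_, ?_⟩
    · intro a b c d hab hcd hne q hq1 hq2
      have hne' : s(e.symm a, e.symm b) ≠ s(e.symm c, e.symm d) := by
        intro h
        apply hne
        rcases Sym2.eq_iff.1 h with ⟨h1, h2⟩ | ⟨h1, h2⟩
        · rw [e.symm.injective h1, e.symm.injective h2]
        · rw [e.symm.injective h1, e.symm.injective h2]; exact Sym2.eq_swap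
      obtain ⟨x, g1, g2, g3⟩ := h2 _ _ _ _ hab hcd hne' q hq1 hq2
      refine ⟨e x, ?_, ?_, ?_⟩
      · rcases g1 with h | h
        · left; rw [h, Equiv.apply_symm_apply]
        · right; rw [h, Equiv.apply_symm_apply]
      · rcases g2 with h | h
        · left; rw [h, Equiv.apply_symm_apply]
        · right; rw [h, Equiv.apply_symm_apply]
      · change q = cpos f u v w Q (e.symm (e x))
        rw [g3, Equiv.symm_apply_apply]
    · intro a b x hab hx
      rcases h3 _ _ _ hab hx with h | h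
      · exact Or.inl (e.symm.injective h)
      · exact Or.inr (e.symm.injective h)
  · intro a
    obtain ⟨g, hg⟩ := nbip_CG (Q := Q) hF (e.symm a)
    exact ⟨fun b => g (e.symm b), fun p q h1 h2 h3 => hg _ _ h1 h2 h3⟩
  · intro a
    rcases h : e.symm a with b | ⟨i, s⟩
    · simp only [h]; exact hL b
    · simp only [h]
      exact (Q i).lists s.1 (Patch.not_isC s.2).1 (Patch.not_isC s.2).2.1 (Patch.not_isC s.2).2.2
  · rintro ⟨φ, h1, h2⟩
    have e1 : ∀ p q, (CG hF Q).Adj p q → φ (e p) ≠ φ (e q) := by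
      intro p q hpq
      apply h1
      change (CG hF Q).Adj (e.symm (e p)) (e.symm (e q))
      rwa [Equiv.symm_apply_apply, Equiv.symm_apply_apply]
    have e2 : ∀ q, φ (e q) ∈ cL L Q q := by
      intro q
      have := h2 (e q)
      simp only [Equiv.symm_apply_apply] at this
      exact this
    have h3 := restrict hF hQ L (fun q => φ (e q)) e1 (fun q => e2 _)
    exact hT (fun a => φ (e (Sum.inl a))) h3.1 (fun a => e2 (Sum.inl a)) h3.2

theorem Kills.mono {K K' : ℕ → ℕ → ℕ → Prop} (h : Kills LL K)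
    (hle : ∀ a b c, K' a b c → K a b c) : Kills LL K' := by
  obtain ⟨P, hP⟩ := h
  exact ⟨P, fun a b c hk => hP a b c (hle a b c hk)⟩

end Pool.TRI
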