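import Pool.Agent.H76.TRI.Check

/-!
# Soundness of the frame check
-/

set_option autoImplicit false

namespace Pool.TRI

/-- The scaled point. -/
noncomputable def sc (N : ℕ) (c : ℕ × ℕ) : ℝ × ℝ := ((c.1 : ℝ) / N, (c.2 : ℝ) / N)

theorem cross_sc {N : ℕ} (hN : 0 < N) (a b c : ℕ × ℕ) :
    cross (sc N a) (sc N b) (sc N c) * (N : ℝ) ^ 2 =
      ((a.1 * b.2 + b.1 * c.2 + c.1 * a.2 : ℕ) : ℝ) -
        ((a.2 * b.1 + b.2 * c.1 + c.2 * a.1 : ℕ) : ℝ) := by
  have h : (N : ℝ) ≠ 0 := by positivity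
  unfold cross sc
  field_simp
  push_cast
  ring

theorem blt_iff {a b : ℕ} : Nat.blt a b = true ↔ a < b := by
  unfold Nat.blt
  rw [Nat.ble_eq]
  exact Iff.rfl

theorem sp_iff {N : ℕ} (hN : 0 < N) (a b c : ℕ × ℕ) :
    sp a.1 a.2 b.1 b.2 c.1 c.2 = true ↔ 0 < cross (sc N a) (sc N b) (sc N c) := by
  have h := cross_sc hN a b c
  have h2 : (0 : ℝ) < (N : ℝ) ^ 2 := by positivity
  unfold sp
  rw [blt_iff, ← Nat.cast_lt (α := ℝ)]
  constructor
  · intro h3
    by_contra h4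
    have := mul_nonpos_of_nonpos_of_nonneg (not_lt.1 h4) h2.le
    linarith
  · intro h3
    have := mul_pos h3 h2
    linarith

theorem sn_iff {N : ℕ} (hN : 0 < N) (a b c : ℕ × ℕ) :
    sn a.1 a.2 b.1 b.2 c.1 c.2 = true ↔ cross (sc N a) (sc N b) (sc N c) < 0 := by
  have h := cross_sc hN a b c
  have h2 : (0 : ℝ) < (N : ℝ) ^ 2 := by positivity
  unfold sn
  rw [blt_iff, ← Nat.cast_lt (α := ℝ)]
  constructor
  · intro h3
    by_contra h4
    have := mul_nonneg (not_lt.1 h4) h2.le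
    linarith
  · intro h3
    have := mul_pos (neg_pos.2 h3) h2
    linarith

theorem sp_false {N : ℕ} (hN : 0 < N) (a b c : ℕ × ℕ) :
    (!(sp a.1 a.2 b.1 b.2 c.1 c.2)) = true ↔ cross (sc N a) (sc N b) (sc N c) ≤ 0 := by
  rw [Bool.not_eq_true', ← Bool.not_eq_true, sp_iff hN, not_lt]

theorem sn_false {N : ℕ} (hN : 0 < N) (a b c : ℕ × ℕ) :
    (!(sn a.1 a.2 b.1 b.2 c.1 c.2)) = true ↔ 0 ≤ cross (sc N a) (sc N b) (sc N c) := by
  rw [Bool.not_eq_true', ← Bool.not_eq_true, sn_iff hN, not_lt]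

theorem nc_iff {N : ℕ} (hN : 0 < N) (a b c : ℕ × ℕ) :
    nc a.1 a.2 b.1 b.2 c.1 c.2 = true ↔ cross (sc N a) (sc N b) (sc N c) ≠ 0 := by
  unfold nc
  rw [Bool.or_eq_true, sp_iff hN, sn_iff hN]
  constructor
  · rintro (h | h)
    · exact h.ne'
    · exact h.ne
  · intro h
    rcases lt_or_gt_of_ne h with h | h
    · exact Or.inr h
    · exact Or.inl h

/-! ## Real geometry -/

theorem mem_seg {a b p : ℝ × ℝ} (h : p ∈ segment ℝ a b) :
    ∃ x y : ℝ, 0 ≤ x ∧ 0 ≤ y ∧ x + y = 1 ∧ p.1 = x * a.1 + y * b.1 ∧ p.2 = x * a.2 + y * b.2 := by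
  obtain ⟨x, y, hx, hy, hxy, rfl⟩ := h
  exact ⟨x, y, hx, hy, hxy, by simp, by simp⟩

theorem cross_seg {a b c d p : ℝ × ℝ} (h : p ∈ segment ℝ c d) :
    ∃ x y : ℝ, 0 ≤ x ∧ 0 ≤ y ∧ x + y = 1 ∧ cross a b p = x * cross a b c + y * cross a b d := by
  obtain ⟨x, y, hx, hy, hxy, e1, e2⟩ := mem_seg h
  refine ⟨x, y, hx, hy, hxy, ?_⟩
  have hx1 : x = 1 - y := by linarith
  unfold cross
  rw [e1, e2, hx1]
  ring

theorem cross_self1 (a b : ℝ × ℝ) : cross a b a = 0 := by unfold cross; ring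

theorem cross_self2 (a b : ℝ × ℝ) : cross a b b = 0 := by unfold cross; ring

theorem cross_rot (a b c : ℝ × ℝ) : cross b c a = cross a b c := by unfold cross; ring

theorem cross_swap (a b c : ℝ × ℝ) : cross b a c = - cross a b c := by unfold cross; ring

theorem shared {a b c p : ℝ × ℝ} (h : cross a b c ≠ 0) (h1 : p ∈ segment ℝ a b)
    (h2 : p ∈ segment ℝ a c) : p = a := by
  obtain ⟨x, y, hx, hy, hxy, e1, e2⟩ := mem_seg h1
  obtain ⟨x', y', hx', hy', hxy', e1', e2'⟩ := mem_seg h2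
  have hx1 : x = 1 - y := by linarith
  have hx1' : x' = 1 - y' := by linarith
  subst hx1
  subst hx1'
  have k1 : y * (b.1 - a.1) = y' * (c.1 - a.1) := by linarith
  have k2 : y * (b.2 - a.2) = y' * (c.2 - a.2) := by linarith
  have k3 : y * cross a b c = 0 := by
    unfold cross
    linear_combination (c.2 - a.2) * k1 - (c.1 - a.1) * k2
  have k4 : y = 0 := by
    rcases mul_eq_zero.1 k3 with h' | h'
    · exact h'
    · exact absurd h' h
  subst k4
  ext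
  · rw [e1]; ring
  · rw [e2]; ring

theorem same_side {a b c d p : ℝ × ℝ}
    (h : (0 < cross a b c ∧ 0 < cross a b d) ∨ (cross a b c < 0 ∧ cross a b d < 0))
    (h1 : p ∈ segment ℝ a b) (h2 : p ∈ segment ℝ c d) : False := by
  obtain ⟨x, y, hx, hy, hxy, e1⟩ := cross_seg (a := a) (b := b) h1
  obtain ⟨x', y', hx', hy', hxy', e2⟩ := cross_seg (a := a) (b := b) h2
  rw [cross_self1, cross_self2] at e1
  rcases h with ⟨h3, h4⟩ | ⟨h3, h4⟩
  · rcases hx'.lt_or_eq with h5 | h5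
    · have := mul_pos h5 h3
      have := mul_nonneg hy' h4.le
      linarith
    · have : y' = 1 := by linarith
      rw [← h5, this] at e2
      linarith
  · rcases hx'.lt_or_eq with h5 | h5
    · have := mul_pos h5 (neg_pos.2 h3)
      have := mul_nonneg hy' (neg_pos.2 h4).le
      linarith
    · have : y' = 1 := by linarith
      rw [← h5, this] at e2
      linarith

/-- Barycentric coordinates of a point of an open triangle. -/
theorem OpenTri.bary {a b c q : ℝ × ℝ} (h : OpenTri a b c q) :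
    ∃ r s t : ℝ, 0 < r ∧ 0 < s ∧ 0 < t ∧ r + s + t = 1 ∧
      q = (r * a.1 + s * b.1 + t * c.1, r * a.2 + s * b.2 + t * c.2) := by
  obtain ⟨w, ⟨h1, h2, h3⟩, rfl⟩ := h
  refine ⟨1 - w.1 - w.2, w.1, w.2, by linarith, h1, h2, by ring, ?_⟩
  unfold aff
  ext <;> simp <;> ring

theorem OpenTri.crosses {a b c q : ℝ × ℝ} (h : OpenTri a b c q) :
    ∃ r s t : ℝ, 0 < r ∧ 0 < s ∧ 0 < t ∧ r + s + t = 1 ∧
      ∀ x y, cross x y q = r * cross x y a + s * cross x y b + t * cross x y c := by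
  obtain ⟨r, s, t, hr, hs, ht, h1, rfl⟩ := h.bary
  refine ⟨r, s, t, hr, hs, ht, h1, fun x y => ?_⟩
  have : r = 1 - s - t := by linarith
  subst this
  unfold cross
  ring

/-- Corner points of a face. -/
noncomputable def Fc.U (f : Fc) (N : ℕ) : ℝ × ℝ := sc N (f.ux, f.uy)
noncomputable def Fc.V (f : Fc) (N : ℕ) : ℝ × ℝ := sc N (f.vx, f.vy)
noncomputable def Fc.W (f : Fc) (N : ℕ) : ℝ × ℝ := sc N (f.wx, f.wy)
noncomputable def Sg.P (s : Sg) (N : ℕ) : ℝ × ℝ := sc N (s.ax, s.ay)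
noncomputable def Sg.Q (s : Sg) (N : ℕ) : ℝ × ℝ := sc N (s.bx, s.by')

def Fc.Op (f : Fc) (N : ℕ) (q : ℝ × ℝ) : Prop := OpenTri (f.U N) (f.V N) (f.W N) q

theorem outs_spec {N : ℕ} (hN : 0 < N) {o : Bool} {a b : ℕ × ℕ} :
    ∀ {l : List (ℕ × ℕ)}, outs o a.1 a.2 b.1 b.2 l = true → ∀ c ∈ l,
      (bif o then (1 : ℝ) else -1) * cross (sc N a) (sc N b) (sc N c) ≤ 0
  | [], _ => fun c hc => absurd hc List.not_mem_nil
  | d :: l, h => by
    unfold outs at h
    rw [Bool.and_eq_true] at h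
    intro c hc
    rcases List.mem_cons.1 hc with rfl | hc
    · cases o
      · rw [cond_false] at h ⊢
        have := (sn_false hN a b c).1 h.1
        linarith
      · rw [cond_true] at h ⊢
        have := (sp_false hN a b c).1 h.1
        linarith
    · exact outs_spec hN h.2 c hc

theorem sepF_spec {N : ℕ} (hN : 0 < N) {f : Fc} {l : List (ℕ × ℕ)}
    (hnd : nc f.ux f.uy f.vx f.vy f.wx f.wy = true) (h : sepF f f.o l = true) :
    ∃ (x y : ℝ × ℝ) (σ : ℝ), (∀ q, f.Op N q → 0 < σ * cross x y q) ∧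
      ∀ c ∈ l, σ * cross x y (sc N c) ≤ 0 := by
  have hD : 0 < (bif f.o then (1 : ℝ) else -1) * cross (f.U N) (f.V N) (f.W N) := by
    cases ho : f.o
    · rw [cond_false]
      unfold Fc.o at ho
      unfold nc at hnd
      rw [ho, Bool.false_or] at hnd
      have := (sn_iff hN (f.ux, f.uy) (f.vx, f.vy) (f.wx, f.wy)).1 hnd
      unfold Fc.U Fc.V Fc.W
      linarith
    · rw [cond_true]
      have := (sp_iff hN (f.ux, f.uy) (f.vx, f.vy) (f.wx, f.wy)).1 ho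
      unfold Fc.U Fc.V Fc.W
      linarith
  unfold sepF at h
  rw [Bool.or_eq_true, Bool.or_eq_true] at h
  rcases h with h | h | h
  · refine ⟨f.U N, f.V N, _, fun q hq => ?_, outs_spec (a := (f.ux, f.uy)) (b := (f.vx, f.vy)) hN h⟩
    obtain ⟨r, s, t, hr, hs, ht, -, e⟩ := OpenTri.crosses hq
    rw [e, cross_self1, cross_self2]
    have := mul_pos ht hD
    nlinarith
  · refine ⟨f.V N, f.W N, _, fun q hq => ?_, outs_spec (a := (f.vx, f.vy)) (b := (f.wx, f.wy)) hN h⟩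
    obtain ⟨r, s, t, hr, hs, ht, -, e⟩ := OpenTri.crosses hq
    rw [e, cross_self1, cross_self2, cross_rot (f.U N) (f.V N) (f.W N)]
    have := mul_pos hr hD
    nlinarith
  · refine ⟨f.W N, f.U N, _, fun q hq => ?_, outs_spec (a := (f.wx, f.wy)) (b := (f.ux, f.uy)) hN h⟩
    obtain ⟨r, s, t, hr, hs, ht, -, e⟩ := OpenTri.crosses hq
    rw [e, cross_self1, cross_self2, cross_rot (f.V N) (f.W N) (f.U N),
      cross_rot (f.U N) (f.V N) (f.W N)]
    have := mul_pos hs hD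
    nlinarith

theorem okFF_spec {N : ℕ} (hN : 0 < N) {f g : Fc}
    (hf : nc f.ux f.uy f.vx f.vy f.wx f.wy = true)
    (hg : nc g.ux g.uy g.vx g.vy g.wx g.wy = true) (h : okFF f g = true) (q : ℝ × ℝ)
    (h1 : f.Op N q) (h2 : g.Op N q) : False := by
  have main : ∀ f g : Fc, nc f.ux f.uy f.vx f.vy f.wx f.wy = true →
      sepF f f.o [(g.ux, g.uy), (g.vx, g.vy), (g.wx, g.wy)] = true →
      f.Op N q → g.Op N q → False := by
    intro f g hf h h1 h2
    obtain ⟨x, y, σ, k1, k2⟩ := sepF_spec hN hf h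
    have e0 := k1 q h1
    obtain ⟨r, s, t, hr, hs, ht, -, e⟩ := OpenTri.crosses h2
    have e1 := mul_nonneg hr.le (neg_nonneg.2 (k2 (g.ux, g.uy) (by simp)))
    have e2 := mul_nonneg hs.le (neg_nonneg.2 (k2 (g.vx, g.vy) (by simp)))
    have e3 := mul_nonneg ht.le (neg_nonneg.2 (k2 (g.wx, g.wy) (by simp)))
    rw [e] at e0
    unfold Fc.U Fc.V Fc.W at e0
    nlinarith
  unfold okFF at h
  rw [Bool.or_eq_true] at h
  rcases h with h | h
  · exact main f g hf h h1 h2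
  · exact main g f hg h h2 h1

theorem okFS_spec {N : ℕ} (hN : 0 < N) {f : Fc} {s : Sg}
    (hf : nc f.ux f.uy f.vx f.vy f.wx f.wy = true) (h : okFS f s = true) (q : ℝ × ℝ)
    (h1 : q ∈ segment ℝ (s.P N) (s.Q N)) (h2 : f.Op N q) : False := by
  unfold okFS at h
  simp only [Bool.or_eq_true, Bool.and_eq_true] at h
  rcases h with h | ⟨a1, a2, a3, a4⟩ | ⟨a1, a2, a3, a4⟩
  · obtain ⟨x, y, σ, k1, k2⟩ := sepF_spec hN hf h
    have e0 := k1 q h2
    obtain ⟨x', y', hx, hy, -, e⟩ := cross_seg (a := x) (b := y) h1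
    have e1 := mul_nonneg hx (neg_nonneg.2 (k2 (s.ax, s.ay) (by simp)))
    have e2 := mul_nonneg hy (neg_nonneg.2 (k2 (s.bx, s.by') (by simp)))
    rw [e] at e0
    unfold Sg.P Sg.Q at e0
    nlinarith
  · obtain ⟨x', y', hx, hy, -, e⟩ := cross_seg (a := s.P N) (b := s.Q N) h1
    rw [cross_self1, cross_self2] at e
    obtain ⟨r, s', t, hr, hs, ht, -, e'⟩ := OpenTri.crosses h2
    rw [e'] at e
    have b1 := (sn_false hN (s.ax, s.ay) (s.bx, s.by') (f.ux, f.uy)).1 a1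
    have b2 := (sn_false hN (s.ax, s.ay) (s.bx, s.by') (f.vx, f.vy)).1 a2
    have b3 := (sn_false hN (s.ax, s.ay) (s.bx, s.by') (f.wx, f.wy)).1 a3
    have c1 := mul_nonneg hr.le b1
    have c2 := mul_nonneg hs.le b2
    have c3 := mul_nonneg ht.le b3
    unfold Sg.P Sg.Q Fc.U Fc.V Fc.W at e
    rcases a4 with a4 | a4 | a4
    · have := mul_pos hr ((sp_iff hN (s.ax, s.ay) (s.bx, s.by') (f.ux, f.uy)).1 a4)
      linarith
    · have := mul_pos hs ((sp_iff hN (s.ax, s.ay) (s.bx, s.by') (f.vx, f.vy)).1 a4)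
      linarith
    · have := mul_pos ht ((sp_iff hN (s.ax, s.ay) (s.bx, s.by') (f.wx, f.wy)).1 a4)
      linarith
  · obtain ⟨x', y', hx, hy, -, e⟩ := cross_seg (a := s.P N) (b := s.Q N) h1
    rw [cross_self1, cross_self2] at e
    obtain ⟨r, s', t, hr, hs, ht, -, e'⟩ := OpenTri.crosses h2
    rw [e'] at e
    have b1 := (sp_false hN (s.ax, s.ay) (s.bx, s.by') (f.ux, f.uy)).1 a1
    have b2 := (sp_false hN (s.ax, s.ay) (s.bx, s.by') (f.vx, f.vy)).1 a2
    have b3 := (sp_false hN (s.ax, s.ay) (s.bx, s.by') (f.wx, f.wy)).1 a3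
    have c1 := mul_nonneg hr.le (neg_nonneg.2 b1)
    have c2 := mul_nonneg hs.le (neg_nonneg.2 b2)
    have c3 := mul_nonneg ht.le (neg_nonneg.2 b3)
    unfold Sg.P Sg.Q Fc.U Fc.V Fc.W at e
    rcases a4 with a4 | a4 | a4
    · have := mul_pos hr (neg_pos.2 ((sn_iff hN (s.ax, s.ay) (s.bx, s.by') (f.ux, f.uy)).1 a4))
      linarith
    · have := mul_pos hs (neg_pos.2 ((sn_iff hN (s.ax, s.ay) (s.bx, s.by') (f.vx, f.vy)).1 a4))
      linarith
    · have := mul_pos ht (neg_pos.2 ((sn_iff hN (s.ax, s.ay) (s.bx, s.by') (f.wx, f.wy)).1 a4))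
      linarith

theorem ss_spec {N : ℕ} (hN : 0 < N) {a b c d : ℕ × ℕ}
    (h : ss a.1 a.2 b.1 b.2 c.1 c.2 d.1 d.2 = true) :
    (0 < cross (sc N a) (sc N b) (sc N c) ∧ 0 < cross (sc N a) (sc N b) (sc N d)) ∨
    (cross (sc N a) (sc N b) (sc N c) < 0 ∧ cross (sc N a) (sc N b) (sc N d) < 0) := by
  unfold ss at h
  simp only [Bool.or_eq_true, Bool.and_eq_true] at h
  rw [sp_iff hN, sp_iff hN, sn_iff hN, sn_iff hN] at h
  exact h

/-- Two tested segments meet only in a common end. -/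
theorem okP_spec {N : ℕ} (hN : 0 < N) {s t : Sg} (h : okP s t = true)
    (hu : s.u = t.u → (s.ax, s.ay) = (t.ax, t.ay)) (huv : s.u = t.v → (s.ax, s.ay) = (t.bx, t.by'))
    (hvu : s.v = t.u → (s.bx, s.by') = (t.ax, t.ay))
    (hv : s.v = t.v → (s.bx, s.by') = (t.bx, t.by'))
    (q : ℝ × ℝ) (h1 : q ∈ segment ℝ (s.P N) (s.Q N)) (h2 : q ∈ segment ℝ (t.P N) (t.Q N)) :
    (s.u = t.u ∧ q = s.P N) ∨ (s.u = t.v ∧ q = s.P N) ∨ (s.v = t.u ∧ q = s.Q N) ∨
      (s.v = t.v ∧ q = s.Q N) := by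
  unfold okP at h
  simp only [Bool.or_eq_true, Bool.and_eq_true, Nat.beq_eq] at h
  rcases h with h | h | ⟨e, h⟩ | ⟨e, h⟩ | ⟨e, h⟩ | ⟨e, h⟩
  · exact (same_side (ss_spec (a := (s.ax, s.ay)) (b := (s.bx, s.by')) (c := (t.ax, t.ay))
      (d := (t.bx, t.by')) hN h) h1 h2).elim
  · exact (same_side (ss_spec (a := (t.ax, t.ay)) (b := (t.bx, t.by')) (c := (s.ax, s.ay))
      (d := (s.bx, s.by')) hN h) h2 h1).elim
  · left
    refine ⟨e, ?_⟩
    have h3 := (nc_iff hN (s.ax, s.ay) (s.bx, s.by') (t.bx, t.by')).1 h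
    have h4 : t.P N = s.P N := by unfold Sg.P; rw [hu e]
    rw [h4] at h2
    exact shared h3 h1 h2
  · right; left
    refine ⟨e, ?_⟩
    have h3 := (nc_iff hN (s.ax, s.ay) (s.bx, s.by') (t.ax, t.ay)).1 h
    have h4 : t.Q N = s.P N := by unfold Sg.P Sg.Q; rw [huv e]
    rw [h4, segment_symm] at h2
    exact shared h3 h1 h2
  · right; right; left
    refine ⟨e, ?_⟩
    have h3 := (nc_iff hN (s.ax, s.ay) (s.bx, s.by') (t.bx, t.by')).1 h
    have h4 : t.P N = s.Q N := by unfold Sg.P Sg.Q; rw [hvu e]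
    rw [h4] at h2
    rw [segment_symm] at h1
    refine shared (fun h5 => h3 ?_) h1 h2
    change cross (s.Q N) (s.P N) (t.Q N) = 0 at h5
    change cross (s.P N) (s.Q N) (t.Q N) = 0
    rw [cross_swap, h5, neg_zero]
  · right; right; right
    refine ⟨e, ?_⟩
    have h3 := (nc_iff hN (s.ax, s.ay) (s.bx, s.by') (t.ax, t.ay)).1 h
    have h4 : t.Q N = s.Q N := by unfold Sg.Q; rw [hv e]
    rw [h4, segment_symm] at h2
    rw [segment_symm] at h1
    refine shared (fun h5 => h3 ?_) h1 h2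
    change cross (s.Q N) (s.P N) (t.P N) = 0 at h5
    change cross (s.P N) (s.Q N) (t.P N) = 0
    rw [cross_swap, h5, neg_zero]

end Pool.TRI
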